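import Pool.Agent.H131R5.LD3
import Pool.Agent.W570.NQ.L3

set_option autoImplicit false

/-!
Shadow movements and the Mahler volume `M_∞` (helper845).
-/

open MeasureTheory Set Filter
open scoped ENNReal Topology Matrix

namespace Pool.Agent.TH845.HP

variable {n m : ℕ}

/-- support function -/
noncomputable def sf (K : Set (Fin n → ℝ)) (y : Fin n → ℝ) : ℝ := sSup ((fun x => x ⬝ᵥ y) '' K)

lemma cont_dot (y : Fin n → ℝ) : Continuous fun x : Fin n → ℝ => x ⬝ᵥ y := by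
  unfold dotProduct
  fun_prop

lemma cont_dot' (x : Fin n → ℝ) : Continuous fun y : Fin n → ℝ => x ⬝ᵥ y := by
  unfold dotProduct
  fun_prop

lemma le_sf {K : Set (Fin n → ℝ)} (hK : IsCompact K) {x : Fin n → ℝ} (hx : x ∈ K)
    (y : Fin n → ℝ) : x ⬝ᵥ y ≤ sf K y :=
  le_csSup (hK.bddAbove_image (cont_dot y).continuousOn) ⟨x, hx, rfl⟩

lemma sf_le {K : Set (Fin n → ℝ)} (hne : K.Nonempty) {y : Fin n → ℝ} {c : ℝ}
    (h : ∀ x ∈ K, x ⬝ᵥ y ≤ c) : sf K y ≤ c :=
  csSup_le (hne.image _) (by rintro _ ⟨x, hx, rfl⟩; exact h x hx)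

/-- `|K| ∫ exp(⟨z, y⟩ - h_K(y)) dy`, the Mahler volume of `K - z` -/
noncomputable def MI (K : Set (Fin n → ℝ)) (z : Fin n → ℝ) : ℝ≥0∞ :=
  volume K * ∫⁻ y, ENNReal.ofReal (Real.exp (z ⬝ᵥ y - sf K y))

/-- the lower bound `c` for all translates -/
def LBI (c : ℝ) (K : Set (Fin n → ℝ)) : Prop := ∀ z, ENNReal.ofReal c ≤ MI K z

lemma MI_eq {K : Set (Fin n → ℝ)} (hK : IsCompact K) (hne : K.Nonempty) (z : Fin n → ℝ) :
    MI K z = Pool.Agent.W570.AV.mah ((fun x => x - z) '' K) := by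
  unfold MI Pool.Agent.W570.AV.mah
  rw [Pool.Agent.H131R5.LC.vol_sub]
  congr 1
  refine lintegral_congr fun y => ?_
  congr 2
  have hc : IsCompact ((fun x => x - z) '' K) := hK.image (by fun_prop)
  have h1 : sf ((fun x => x - z) '' K) y = sf K y - z ⬝ᵥ y := by
    apply le_antisymm
    · refine sf_le (hne.image _) ?_
      rintro _ ⟨x, hx, rfl⟩
      simp only
      rw [sub_dotProduct]
      linarith [le_sf hK hx y]
    · have : sf K y ≤ sf ((fun x => x - z) '' K) y + z ⬝ᵥ y := by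
        refine sf_le hne fun x hx => ?_
        have := le_sf hc ⟨x, hx, rfl⟩ y
        simp only at this
        rw [sub_dotProduct] at this
        linarith
      linarith
  have h2 : sSup ((fun x : Fin n → ℝ => ∑ i, x i * y i) '' ((fun x => x - z) '' K)) =
      sf ((fun x => x - z) '' K) y := rfl
  rw [h2, h1]
  ring

lemma MI_top {K : Set (Fin n → ℝ)} (hv : Convex ℝ K) (hK : IsCompact K)
    (hi : (interior K).Nonempty) {z : Fin n → ℝ} (hz : z ∉ interior K) : MI K z = ⊤ := by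
  rw [MI_eq hK (hi.mono interior_subset)]
  have hint : interior ((fun x => x - z) '' K) = (fun x => x - z) '' interior K :=
    ((Homeomorph.subRight z).image_interior K).symm
  refine Pool.Agent.W570.NQ.mah_top ?_ (hK.image (by fun_prop)) ?_ ?_
  · rw [Pool.Agent.H131R5.LC.image_sub]
    exact hv.translate_preimage_left z
  · rw [hint]; exact hi.image _
  · rw [hint]
    rintro ⟨x, hx, hxz⟩
    have : x = z := by simpa [sub_eq_zero] using hxz
    exact hz (this ▸ hx)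

lemma ball_sf {K : Set (Fin n → ℝ)} (hK : IsCompact K) {p : Fin n → ℝ} (hp : p ∈ interior K) :
    ∃ ε : ℝ, 0 < ε ∧ ∀ y, p ⬝ᵥ y + ε * ‖y‖ ≤ sf K y := by
  obtain ⟨r, hr, hrK⟩ := Metric.mem_nhds_iff.1 (mem_interior_iff_mem_nhds.1 hp)
  refine ⟨r / 2, by positivity, fun y => ?_⟩
  have hpK : p ∈ K := interior_subset hp
  have h0 : 0 ≤ sf K y - p ⬝ᵥ y := by linarith [le_sf hK hpK y]
  have key : ‖y‖ ≤ (sf K y - p ⬝ᵥ y) / (r / 2) := by
    rw [pi_norm_le_iff_of_nonneg (by positivity)]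
    intro i
    rw [Real.norm_eq_abs, le_div_iff₀ (by positivity)]
    have hmem : ∀ s : ℝ, |s| ≤ 1 → p + (s * (r / 2)) • (Pi.single i (1:ℝ) : Fin n → ℝ) ∈ K := by
      intro s hs
      apply hrK
      rw [mem_ball_iff_norm, add_sub_cancel_left, norm_smul]
      have h3 : ‖(Pi.single i (1:ℝ) : Fin n → ℝ)‖ ≤ 1 := by
        rw [pi_norm_le_iff_of_nonneg zero_le_one]
        intro j
        by_cases hj : j = i
        · subst hj; simp
        · simp [hj]
      rw [Real.norm_eq_abs, abs_mul, abs_of_pos (show 0 < r / 2 by positivity)]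
      calc |s| * (r / 2) * ‖(Pi.single i (1:ℝ) : Fin n → ℝ)‖ ≤ 1 * (r / 2) * 1 := by gcongr
        _ < r := by linarith
    have h4 : ∀ s : ℝ, |s| ≤ 1 → s * (r / 2) * y i ≤ sf K y - p ⬝ᵥ y := by
      intro s hs
      have h5 := le_sf hK (hmem s hs) y
      rw [add_dotProduct, smul_dotProduct, smul_eq_mul] at h5
      have h6 : (Pi.single i (1:ℝ) : Fin n → ℝ) ⬝ᵥ y = y i := by simp
      rw [h6] at h5
      linarith
    rcases le_total 0 (y i) with h | h
    · rw [abs_of_nonneg h]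
      have := h4 1 (by simp)
      linarith
    · rw [abs_of_nonpos h]
      have := h4 (-1) (by simp)
      linarith
  rw [le_div_iff₀ (by positivity)] at key
  linarith

/-- the section at time `t` of a shadow system in direction `θ` -/
def St (θ : Fin n → ℝ) (K : Set ((Fin n → ℝ) × ℝ)) (t : ℝ) : Set (Fin n → ℝ) :=
  (fun q : (Fin n → ℝ) × ℝ => q.1 + (t * q.2) • θ) '' K

lemma St_comp {θ : Fin n → ℝ} {K : Set ((Fin n → ℝ) × ℝ)} (hK : IsCompact K) (t : ℝ) :
    IsCompact (St θ K t) := hK.image (by fun_prop)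

lemma St_conv {θ : Fin n → ℝ} {K : Set ((Fin n → ℝ) × ℝ)} (hK : Convex ℝ K) (t : ℝ) :
    Convex ℝ (St θ K t) := by
  rintro _ ⟨q, hq, rfl⟩ _ ⟨q', hq', rfl⟩ s s' hs hs' hss
  refine ⟨s • q + s' • q', hK hq hq' hs hs' hss, ?_⟩
  simp only [Prod.fst_add, Prod.smul_fst, Prod.snd_add, Prod.smul_snd, smul_eq_mul]
  module

/-- lifting of interior points -/
lemma lift {θ : Fin n → ℝ} {K : Set ((Fin n → ℝ) × ℝ)} (hv : Convex ℝ K) {a b : ℝ}
    (hi1 : (interior (St θ K b)).Nonempty) (hi2 : (interior (St θ K (-a))).Nonempty)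
    {z : Fin n → ℝ} (hz : z ∈ interior (St θ K 0)) :
    ∃ σ : ℝ, z + (b * σ) • θ ∈ interior (St θ K b) ∧ z + (-a * σ) • θ ∈ interior (St θ K (-a)) := by
  obtain ⟨x1, hx1⟩ := hi1
  obtain ⟨P, hP, hPx⟩ := interior_subset hx1
  obtain ⟨x2, hx2⟩ := hi2
  obtain ⟨Q, hQ, hQx⟩ := interior_subset hx2
  simp only at hPx hQx
  -- the midpoint
  set R : (Fin n → ℝ) × ℝ := (1/2 : ℝ) • P + (1/2 : ℝ) • Q with hR
  have hRK : R ∈ K := hv hP hQ (by norm_num) (by norm_num) (by norm_num)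
  have hlin : ∀ (t α β : ℝ) (p q : (Fin n → ℝ) × ℝ), (α • p + β • q).1 + (t * (α • p + β • q).2) • θ
      = α • (p.1 + (t * p.2) • θ) + β • (q.1 + (t * q.2) • θ) := by
    intro t α β p q
    simp only [Prod.fst_add, Prod.smul_fst, Prod.snd_add, Prod.smul_snd, smul_eq_mul]
    module
  have hR1 : R.1 + (b * R.2) • θ ∈ interior (St θ K b) := by
    rw [hR, hlin, hPx]
    exact (St_conv hv b).combo_interior_self_mem_interior hx1 ⟨Q, hQ, rfl⟩ (by norm_num)
      (by norm_num) (by norm_num)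
  have hR2 : R.1 + (-a * R.2) • θ ∈ interior (St θ K (-a)) := by
    rw [hR, hlin, hQx]
    exact (St_conv hv (-a)).combo_self_interior_mem_interior ⟨P, hP, rfl⟩ hx2 (by norm_num)
      (by norm_num) (by norm_num)
  -- a point beyond z
  have hcont : Continuous fun ε : ℝ => z + ε • (z - R.1) := by fun_prop
  have hnhds : ∀ᶠ ε in 𝓝 (0:ℝ), z + ε • (z - R.1) ∈ interior (St θ K 0) := by
    refine hcont.continuousAt.eventually ?_
    simp only [zero_smul, add_zero]
    exact isOpen_interior.mem_nhds hz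
  obtain ⟨ε, hεpos, hε⟩ : ∃ ε : ℝ, 0 < ε ∧ z + ε • (z - R.1) ∈ interior (St θ K 0) := by
    obtain ⟨δ, hδ, hδ'⟩ := Metric.eventually_nhds_iff.1 hnhds
    refine ⟨δ / 2, by positivity, hδ' ?_⟩
    rw [Real.dist_eq, sub_zero, abs_of_pos (by positivity)]
    linarith
  obtain ⟨Z, hZ, hZx⟩ := interior_subset hε
  simp only [zero_mul, zero_smul, add_zero] at hZx
  set T : (Fin n → ℝ) × ℝ := (1 / (1 + ε)) • Z + (ε / (1 + ε)) • R with hT
  have h1e : (1:ℝ) + ε ≠ 0 := by positivity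
  have hs1 : 1 / (1 + ε) + ε / (1 + ε) = 1 := by field_simp
  have hT1 : T.1 = z := by
    rw [hT]
    simp only [Prod.fst_add, Prod.smul_fst]
    rw [hZx]
    have e1 : (1 / (1 + ε)) • (z + ε • (z - R.1)) + (ε / (1 + ε)) • R.1 =
        (1 / (1 + ε) * (1 + ε)) • z + (-(1 / (1 + ε) * ε) + ε / (1 + ε)) • R.1 := by module
    rw [e1, one_div_mul_cancel h1e, one_smul]
    have e2 : -(1 / (1 + ε) * ε) + ε / (1 + ε) = 0 := by ring
    rw [e2, zero_smul, add_zero]
  refine ⟨T.2, ?_, ?_⟩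
  · have h3 : T.1 + (b * T.2) • θ ∈ interior (St θ K b) := by
      rw [hT, hlin]
      exact (St_conv hv b).combo_self_interior_mem_interior ⟨Z, hZ, rfl⟩ hR1 (by positivity)
        (by positivity) hs1
    rwa [hT1] at h3
  · have h3 : T.1 + (-a * T.2) • θ ∈ interior (St θ K (-a)) := by
      rw [hT, hlin]
      exact (St_conv hv (-a)).combo_self_interior_mem_interior ⟨Z, hZ, rfl⟩ hR2 (by positivity)
        (by positivity) hs1
    rwa [hT1] at h3

end Pool.Agent.TH845.HP
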