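import Pool.Agent.TH845.HP.A1

set_option autoImplicit false

/-!
The shadow movement theorem for `M_∞` (helper845).
-/

open MeasureTheory Set Filter
open scoped ENNReal Topology Matrix

namespace Pool.Agent.TH845.HP

open Pool.Agent.H131R5.LC (e0 e0_dot Good Bd GU coreU exp_int)

variable {m : ℕ}

/-- the support function of the lifted body -/
noncomputable def hh (K : Set ((Fin (m + 1) → ℝ) × ℝ)) (q : (Fin (m + 1) → ℝ) × ℝ) : ℝ :=
  sSup ((fun p : (Fin (m + 1) → ℝ) × ℝ => p.1 ⬝ᵥ q.1 + p.2 * q.2) '' K)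

lemma cont_dot2 (m : ℕ) : Continuous fun q : (Fin (m + 1) → ℝ) × (Fin (m + 1) → ℝ) =>
    q.1 ⬝ᵥ q.2 := by
  unfold dotProduct
  fun_prop

lemma hh_cont {K : Set ((Fin (m + 1) → ℝ) × ℝ)} (hK : IsCompact K) : Continuous (hh K) := by
  unfold hh
  refine IsCompact.continuous_sSup (f := fun (q p : (Fin (m + 1) → ℝ) × ℝ) =>
    p.1 ⬝ᵥ q.1 + p.2 * q.2) hK ?_
  have h1 : Continuous fun r : ((Fin (m + 1) → ℝ) × ℝ) × ((Fin (m + 1) → ℝ) × ℝ) =>
      r.2.1 ⬝ᵥ r.1.1 := (cont_dot2 m).comp (by fun_prop : Continuous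
        fun r : ((Fin (m + 1) → ℝ) × ℝ) × ((Fin (m + 1) → ℝ) × ℝ) => (r.2.1, r.1.1))
  exact h1.add (by fun_prop)

lemma le_hh {K : Set ((Fin (m + 1) → ℝ) × ℝ)} (hK : IsCompact K) {p : (Fin (m + 1) → ℝ) × ℝ}
    (hp : p ∈ K) (q : (Fin (m + 1) → ℝ) × ℝ) : p.1 ⬝ᵥ q.1 + p.2 * q.2 ≤ hh K q := by
  refine le_csSup (hK.bddAbove_image ?_) ⟨p, hp, rfl⟩
  have : Continuous fun p : (Fin (m + 1) → ℝ) × ℝ => p.1 ⬝ᵥ q.1 + p.2 * q.2 :=
    ((cont_dot q.1).comp continuous_fst).add (by fun_prop)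
  exact this.continuousOn

lemma hh_le {K : Set ((Fin (m + 1) → ℝ) × ℝ)} (hne : K.Nonempty) {q : (Fin (m + 1) → ℝ) × ℝ}
    {c : ℝ} (h : ∀ p ∈ K, p.1 ⬝ᵥ q.1 + p.2 * q.2 ≤ c) : hh K q ≤ c :=
  csSup_le (hne.image _) (by rintro _ ⟨x, hx, rfl⟩; exact h x hx)

lemma hh_sec (K : Set ((Fin (m + 1) → ℝ) × ℝ)) (y : Fin (m + 1) → ℝ) (k : ℝ) :
    hh K (y, k * y 0) = sf (St (e0 m) K k) y := by
  unfold hh sf St
  rw [image_image]
  congr 1
  refine image_congr fun p _ => ?_
  rw [add_dotProduct, smul_dotProduct, e0_dot, smul_eq_mul]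
  ring

/-- the log-concave function -/
noncomputable def VV (K : Set ((Fin (m + 1) → ℝ) × ℝ)) (z : Fin (m + 1) → ℝ) (σ : ℝ)
    (y : Fin (m + 1) → ℝ) (s : ℝ) : ℝ := Real.exp (z ⬝ᵥ y + σ * s - hh K (y, s))

lemma VV_sec (K : Set ((Fin (m + 1) → ℝ) × ℝ)) (z : Fin (m + 1) → ℝ) (σ : ℝ)
    (y : Fin (m + 1) → ℝ) (k : ℝ) :
    VV K z σ y (k * y 0) = Real.exp ((z + (k * σ) • e0 m) ⬝ᵥ y - sf (St (e0 m) K k) y) := by
  unfold VV
  rw [hh_sec, add_dotProduct, smul_dotProduct, e0_dot, smul_eq_mul]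
  congr 1
  ring

lemma VV_good {K : Set ((Fin (m + 1) → ℝ) × ℝ)} (hK : IsCompact K) (hne : K.Nonempty)
    (z : Fin (m + 1) → ℝ) (σ : ℝ) : Good (VV K z σ) := by
  refine ⟨?_, fun y s => Real.exp_pos _, ?_⟩
  · unfold VV
    have h1 : Continuous fun q : (Fin (m + 1) → ℝ) × ℝ => z ⬝ᵥ q.1 :=
      (cont_dot' z).comp continuous_fst
    have h2 := hh_cont hK
    have h3 : Continuous fun q : (Fin (m + 1) → ℝ) × ℝ => σ * q.2 := by fun_prop
    exact Real.continuous_exp.comp ((h1.add h3).sub h2)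
  · intro y y' s s' θ h0 h1
    unfold VV
    rw [← Real.exp_mul, ← Real.exp_mul, ← Real.exp_add]
    apply Real.exp_le_exp.2
    have h2 : hh K (θ • y + (1 - θ) • y', θ * s + (1 - θ) * s') ≤
        θ * hh K (y, s) + (1 - θ) * hh K (y', s') := by
      refine hh_le hne fun p hp => ?_
      have h3 := le_hh hK hp (y, s)
      have h4 := le_hh hK hp (y', s')
      simp only at h3 h4 ⊢
      rw [dotProduct_add, dotProduct_smul, dotProduct_smul, smul_eq_mul, smul_eq_mul]
      have h5 : 0 < 1 - θ := by linarith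
      nlinarith [mul_le_mul_of_nonneg_left h3 h0.le, mul_le_mul_of_nonneg_left h4 h5.le]
    rw [dotProduct_add, dotProduct_smul, dotProduct_smul, smul_eq_mul, smul_eq_mul]
    linarith

lemma VV_bd {K : Set ((Fin (m + 1) → ℝ) × ℝ)} (hK : IsCompact K) {z : Fin (m + 1) → ℝ} {σ k : ℝ}
    (h : z + (k * σ) • e0 m ∈ interior (St (e0 m) K k)) : Bd (VV K z σ) k := by
  obtain ⟨ε, hε, hb⟩ := ball_sf (St_comp hK k) h
  refine ⟨1, ε, one_pos, hε, fun y => ?_⟩
  rw [VV_sec, one_mul]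
  apply Real.exp_le_exp.2
  have := hb y
  linarith

/-- **the shadow movement theorem for `M_∞`, normalised direction** -/
theorem shadow {K : Set ((Fin (m + 1) → ℝ) × ℝ)} (hK : IsCompact K) (hv : Convex ℝ K)
    {a b c : ℝ} (ha : 0 < a) (hb : 0 < b) (hc : 0 < c)
    (hi0 : (interior (St (e0 m) K 0)).Nonempty)
    (hi1 : (interior (St (e0 m) K b)).Nonempty) (hi2 : (interior (St (e0 m) K (-a))).Nonempty)
    (hvol : b * (volume (St (e0 m) K (-a))).toReal + a * (volume (St (e0 m) K b)).toReal ≤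
      (a + b) * (volume (St (e0 m) K 0)).toReal)
    (h1 : LBI c (St (e0 m) K b)) (h2 : LBI c (St (e0 m) K (-a))) :
    LBI c (St (e0 m) K 0) := by
  intro z
  by_cases hz : z ∈ interior (St (e0 m) K 0)
  swap
  · rw [MI_top (St_conv hv 0) (St_comp hK 0) hi0 hz]
    exact le_top
  obtain ⟨σ, hσ1, hσ2⟩ := lift hv hi1 hi2 hz
  have hne : K.Nonempty := by
    obtain ⟨x, hx⟩ := hi0
    obtain ⟨q, hq, -⟩ := interior_subset hx
    exact ⟨q, hq⟩
  have hgood := VV_good hK hne z σ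
  have hb1 : Bd (VV K z σ) b := VV_bd hK hσ1
  have hb2 : Bd (VV K z σ) (-a) := VV_bd hK hσ2
  have hb0 : Bd (VV K z σ) 0 := VV_bd hK (by simpa using hz)
  have hU : GU (fun y => VV K z σ y 0) := by
    refine ⟨hgood.cont.comp (by fun_prop : Continuous fun y : Fin (m + 1) → ℝ => (y, (0:ℝ))),
      fun y => hgood.pos y 0, ?_⟩
    obtain ⟨C, ε, hC, hε, hbd⟩ := hb0
    exact ⟨C, ε, hC, hε, fun y => by simpa using hbd y⟩
  have hpos : ∀ t, (interior (St (e0 m) K t)).Nonempty → 0 < (volume (St (e0 m) K t)).toReal :=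
    fun t ht => ENNReal.toReal_pos (Measure.measure_pos_of_nonempty_interior _ ht).ne'
      (St_comp hK t).measure_lt_top.ne
  set v1 := (volume (St (e0 m) K b)).toReal with hv1
  set v2 := (volume (St (e0 m) K (-a))).toReal with hv2
  set v0 := (volume (St (e0 m) K 0)).toReal with hv0
  have p1 : 0 < v1 := hpos b hi1
  have p2 : 0 < v2 := hpos (-a) hi2
  have p0 : 0 < v0 := hpos 0 hi0
  have hof : ∀ t, volume (St (e0 m) K t) = ENNReal.ofReal (volume (St (e0 m) K t)).toReal :=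
    fun t => (ENNReal.ofReal_toReal (St_comp hK t).measure_lt_top.ne).symm
  have key := coreU hgood hU ha hb hb1 hb2 (by
      intro y y' θ h0 h1' he
      have h3 := hgood.lc y y' (b * y 0) (-a * y' 0) θ h0 h1'
      have h4 : θ * (b * y 0) + (1 - θ) * (-a * y' 0) = 0 := by linarith
      rw [h4] at h3
      exact h3) (κ1 := c / v1) (κ2 := c / v2) (by positivity) (by positivity) (by
      intro t
      rw [ENNReal.ofReal_div_of_pos p1]
      apply ENNReal.div_le_of_le_mul'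
      have h := h1 (z + (b * σ) • e0 m + (t * b) • e0 m)
      unfold MI at h
      rw [hof b] at h
      refine h.trans (le_of_eq ?_)
      congr 1
      refine lintegral_congr fun y => ?_
      rw [VV_sec, ← Real.exp_add]
      congr 2
      rw [add_dotProduct, smul_dotProduct, e0_dot, smul_eq_mul]
      ring) (by
      intro t
      rw [ENNReal.ofReal_div_of_pos p2]
      apply ENNReal.div_le_of_le_mul'
      have h := h2 (z + (-a * σ) • e0 m + (-(t * a)) • e0 m)
      unfold MI at h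
      rw [hof (-a)] at h
      refine h.trans (le_of_eq ?_)
      congr 1
      refine lintegral_congr fun y => ?_
      rw [VV_sec, ← Real.exp_add]
      congr 2
      rw [add_dotProduct, smul_dotProduct, e0_dot, smul_eq_mul]
      ring)
  -- conclusion
  set I : ℝ := ∫ y, VV K z σ y 0 with hI
  have hI0 : 0 ≤ I := integral_nonneg fun y => (hgood.pos y 0).le
  have e1 : (b * (c / v1) + a * (c / v2)) * I = (c / (v1 * v2)) * ((b * v2 + a * v1) * I) := by
    field_simp
  have e2 : (a + b) * (c / v1) * (c / v2) = (c / (v1 * v2)) * ((a + b) * c) := by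
    field_simp
  rw [e1, e2] at key
  have key2 : (a + b) * c ≤ (b * v2 + a * v1) * I := le_of_mul_le_mul_left key (by positivity)
  have key3 : (a + b) * c ≤ (a + b) * (v0 * I) := by
    calc (a + b) * c ≤ (b * v2 + a * v1) * I := key2
      _ ≤ ((a + b) * v0) * I := by gcongr
      _ = _ := by ring
  have key4 : c ≤ v0 * I := le_of_mul_le_mul_left key3 (by positivity)
  unfold MI
  rw [hof 0]
  have e3 : ∫⁻ y, ENNReal.ofReal (Real.exp (z ⬝ᵥ y - sf (St (e0 m) K 0) y)) =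
      ENNReal.ofReal I := by
    rw [hI, ofReal_integral_eq_lintegral_ofReal (Pool.Agent.H131R5.LC.Uint hU)
      (Eventually.of_forall fun y => (hgood.pos y 0).le)]
    refine lintegral_congr fun y => ?_
    congr 1
    have := VV_sec K z σ y 0
    simp only [zero_mul, zero_smul, add_zero] at this
    exact this.symm
  rw [e3, ← ENNReal.ofReal_mul p0.le]
  exact ENNReal.ofReal_le_ofReal key4

end Pool.Agent.TH845.HP
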