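import Pool.Agent.TH845.HP.B1
import Pool.Agent.H131R5.LC4

set_option autoImplicit false

/-!
Volumes via fibres in the direction `e₀` (helper845).
-/

open MeasureTheory Set Filter
open scoped ENNReal Topology Matrix

namespace Pool.Agent.TH845.HP

open Pool.Agent.PZ871.PLaux (lintegral_succ)

variable {n m : ℕ}

/-- the fibre -/
def fib (K : Set (Fin (m + 1) → ℝ)) (x : Fin m → ℝ) : Set ℝ := {r | cn r x ∈ K}

lemma cn_cont1 (x : Fin m → ℝ) : Continuous fun r : ℝ => cn r x :=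
  (cn_cont m).comp (by fun_prop : Continuous fun r : ℝ => (r, x))

lemma cn_cont2 (r : ℝ) : Continuous fun x : Fin m → ℝ => cn r x :=
  (cn_cont m).comp (by fun_prop : Continuous fun x : Fin m → ℝ => (r, x))

/-- volume via sections orthogonal to `e₀` -/
lemma vol_sec {K : Set (Fin (m + 1) → ℝ)} (hK : MeasurableSet K) :
    volume K = ∫⁻ r : ℝ, volume {x : Fin m → ℝ | cn r x ∈ K} := by
  have h1 : volume K = ∫⁻ z, K.indicator 1 z := by rw [lintegral_indicator_one hK]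
  rw [h1, lintegral_succ m _ (measurable_one.indicator hK)]
  refine lintegral_congr fun r => ?_
  have h2 : MeasurableSet {x : Fin m → ℝ | cn r x ∈ K} := (cn_cont2 r).measurable hK
  rw [← lintegral_indicator_one h2]
  rfl

/-- volume via fibres -/
lemma vol_fib {K : Set (Fin (m + 1) → ℝ)} (hK : MeasurableSet K) :
    volume K = ∫⁻ x : Fin m → ℝ, volume (fib K x) := by
  have h1 : volume K = ∫⁻ z, K.indicator 1 z := by rw [lintegral_indicator_one hK]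
  rw [h1, lintegral_succ m _ (measurable_one.indicator hK)]
  have hm : Measurable (fun q : ℝ × (Fin m → ℝ) => K.indicator (1 : (Fin (m + 1) → ℝ) → ℝ≥0∞)
      (Fin.cons q.1 q.2)) := (measurable_one.indicator hK).comp (cn_cont m).measurable
  rw [lintegral_lintegral_swap hm.aemeasurable]
  refine lintegral_congr fun x => ?_
  have h2 : MeasurableSet (fib K x) := (cn_cont1 x).measurable hK
  rw [← lintegral_indicator_one h2]
  rfl

lemma fib_comp {K : Set (Fin (m + 1) → ℝ)} (hK : IsCompact K) (x : Fin m → ℝ) :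
    IsCompact (fib K x) := by
  refine Metric.isCompact_of_isClosed_isBounded (hK.isClosed.preimage (cn_cont1 x)) ?_
  have h1 : fib K x ⊆ (fun z : Fin (m + 1) → ℝ => z 0) '' K := by
    intro r hr
    exact ⟨cn r x, hr, rfl⟩
  exact (hK.image (by fun_prop : Continuous fun z : Fin (m + 1) → ℝ => z 0)).isBounded.subset h1

lemma fib_conv {K : Set (Fin (m + 1) → ℝ)} (hK : Convex ℝ K) (x : Fin m → ℝ) :
    Convex ℝ (fib K x) := by
  intro r hr s hs a b ha hb hab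
  have h := hK hr hs ha hb hab
  rw [cn_smul, cn_smul, cn_add, ← add_smul, hab, one_smul] at h
  exact h

lemma conv_Icc {I : Set ℝ} (hc : Convex ℝ I) (hk : IsCompact I) (hne : I.Nonempty) :
    ∃ p q : ℝ, p ≤ q ∧ I = Icc p q := by
  have h := eq_Icc_of_connected_compact ⟨hne, hc.isPreconnected⟩ hk
  refine ⟨sInf I, sSup I, ?_, h⟩
  obtain ⟨x, hx⟩ := hne
  rw [h] at hx
  exact hx.1.trans hx.2

/-- **the volume inequality from an inclusion between fibres** -/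
theorem vol_ineq {K1 K2 K0 : Set (Fin (m + 1) → ℝ)} (h1c : IsCompact K1) (h2c : IsCompact K2)
    (h0c : IsCompact K0) (h1v : Convex ℝ K1) (h2v : Convex ℝ K2) (h0v : Convex ℝ K0)
    {s1 s2 : ℝ} (hs1 : 0 ≤ s1) (hs2 : 0 ≤ s2)
    (hmix : ∀ (x : Fin m → ℝ) (r1 r2 : ℝ), cn r1 x ∈ K1 → cn r2 x ∈ K2 →
      cn (s1 * r1 + s2 * r2) x ∈ K0)
    (hproj : ∀ x : Fin m → ℝ, (∃ r, cn r x ∈ K1) ↔ ∃ r, cn r x ∈ K2) :
    s1 * (volume K1).toReal + s2 * (volume K2).toReal ≤ (volume K0).toReal := by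
  have key : ENNReal.ofReal s1 * volume K1 + ENNReal.ofReal s2 * volume K2 ≤ volume K0 := by
    rw [vol_fib h1c.measurableSet, vol_fib h2c.measurableSet, vol_fib h0c.measurableSet]
    rw [← lintegral_const_mul' _ _ ENNReal.ofReal_ne_top,
      ← lintegral_const_mul' _ _ ENNReal.ofReal_ne_top]
    refine (le_lintegral_add _ _).trans (lintegral_mono fun x => ?_)
    rcases (fib K1 x).eq_empty_or_nonempty with hE | hE
    · have hE2 : fib K2 x = ∅ := by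
        rw [eq_empty_iff_forall_notMem] at hE ⊢
        intro r hr
        obtain ⟨r', hr'⟩ := (hproj x).2 ⟨r, hr⟩
        exact hE r' hr'
      simp only [hE, hE2, measure_empty, mul_zero, add_zero]
      exact zero_le
    have hE2 : (fib K2 x).Nonempty := (hproj x).1 hE
    obtain ⟨p1, q1, hpq1, e1⟩ := conv_Icc (fib_conv h1v x) (fib_comp h1c x) hE
    obtain ⟨p2, q2, hpq2, e2⟩ := conv_Icc (fib_conv h2v x) (fib_comp h2c x) hE2
    have a1 : p1 ∈ fib K1 x := by rw [e1]; exact ⟨le_rfl, hpq1⟩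
    have a2 : p2 ∈ fib K2 x := by rw [e2]; exact ⟨le_rfl, hpq2⟩
    have b1 : q1 ∈ fib K1 x := by rw [e1]; exact ⟨hpq1, le_rfl⟩
    have b2 : q2 ∈ fib K2 x := by rw [e2]; exact ⟨hpq2, le_rfl⟩
    have c1 : s1 * p1 + s2 * p2 ∈ fib K0 x := hmix x p1 p2 a1 a2
    have c2 : s1 * q1 + s2 * q2 ∈ fib K0 x := hmix x q1 q2 b1 b2
    have c3 : Icc (s1 * p1 + s2 * p2) (s1 * q1 + s2 * q2) ⊆ fib K0 x :=
      (fib_conv h0v x).ordConnected.out c1 c2
    refine le_trans ?_ (measure_mono c3)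
    rw [e1, e2, Real.volume_Icc, Real.volume_Icc, Real.volume_Icc, ← ENNReal.ofReal_mul hs1,
      ← ENNReal.ofReal_mul hs2, ← ENNReal.ofReal_add (by nlinarith) (by nlinarith)]
    apply ENNReal.ofReal_le_ofReal
    nlinarith
  have hf1 := h1c.measure_lt_top (μ := volume)
  have hf2 := h2c.measure_lt_top (μ := volume)
  have hf0 := h0c.measure_lt_top (μ := volume)
  have h := ENNReal.toReal_mono hf0.ne key
  rw [ENNReal.toReal_add (ENNReal.mul_ne_top ENNReal.ofReal_ne_top hf1.ne)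
    (ENNReal.mul_ne_top ENNReal.ofReal_ne_top hf2.ne), ENNReal.toReal_mul, ENNReal.toReal_mul,
    ENNReal.toReal_ofReal hs1, ENNReal.toReal_ofReal hs2] at h
  exact h

/-- the projection of `KK` does not depend on the heights -/
lemma KK_proj {B : Set (Fin m → ℝ)} {a : Fin m → ℝ} {α γ α' γ' : ℝ} (h' : α' ≤ γ')
    {x : Fin m → ℝ} (hx : ∃ r, cn r x ∈ KK B a α γ) : ∃ r, cn r x ∈ KK B a α' γ' := by
  obtain ⟨r, hr⟩ := hx
  obtain ⟨w, h0, h1, -, -, hW⟩ := mem_KK.1 hr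
  exact ⟨w * α', mem_KK.2 ⟨w, h0, h1, le_rfl, by gcongr, hW⟩⟩

/-- first type: the hyperplane separates the two points -/
lemma KK_mix1 {B : Set (Fin m → ℝ)} {a : Fin m → ℝ} {α1 γ1 α2 γ2 s1 s2 : ℝ}
    (hs1 : 0 ≤ s1) (hs2 : 0 ≤ s2) (ha1 : α1 ≤ 0) (ha2 : α2 ≤ 0)
    (hg1 : 0 ≤ γ1) (hg2 : 0 ≤ γ2) {x : Fin m → ℝ} {r1 r2 : ℝ} (h1 : cn r1 x ∈ KK B a α1 γ1)
    (h2 : cn r2 x ∈ KK B a α2 γ2) :
    cn (s1 * r1 + s2 * r2) x ∈ KK B a (s1 * α1 + s2 * α2) (s1 * γ1 + s2 * γ2) := by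
  obtain ⟨w1, h01, h11, hl1, hr1, hW1⟩ := mem_KK.1 h1
  obtain ⟨w2, h02, h12, hl2, hr2, hW2⟩ := mem_KK.1 h2
  rcases le_total w1 w2 with h | h
  · refine mem_KK.2 ⟨w2, h02, h12, ?_, ?_, hW2⟩
    · have e1 : w2 * α1 ≤ w1 * α1 := by nlinarith
      nlinarith [mul_le_mul_of_nonneg_left (e1.trans hl1) hs1, mul_le_mul_of_nonneg_left hl2 hs2]
    · have e1 : w1 * γ1 ≤ w2 * γ1 := by nlinarith
      nlinarith [mul_le_mul_of_nonneg_left (hr1.trans e1) hs1, mul_le_mul_of_nonneg_left hr2 hs2]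
  · refine mem_KK.2 ⟨w1, h01, h11, ?_, ?_, hW1⟩
    · have e1 : w1 * α2 ≤ w2 * α2 := by nlinarith
      nlinarith [mul_le_mul_of_nonneg_left (e1.trans hl2) hs2, mul_le_mul_of_nonneg_left hl1 hs1]
    · have e1 : w2 * γ2 ≤ w1 * γ2 := by nlinarith
      nlinarith [mul_le_mul_of_nonneg_left (hr2.trans e1) hs2, mul_le_mul_of_nonneg_left hr1 hs1]

/-- second type, main case -/
lemma KK_mix2a {B : Set (Fin m → ℝ)} (hB : Convex ℝ B) {a : Fin m → ℝ} {α1 α2 γ s1 s2 : ℝ}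
    (hs1 : 0 ≤ s1) (hs2 : 0 ≤ s2) (hs : s1 + s2 = 1) (ha1 : 0 ≤ α1) (ha2 : 0 ≤ α2)
    (hg1 : α1 ≤ γ) (hg2 : α2 ≤ γ) (hγ : 0 < γ) {x : Fin m → ℝ} {r1 r2 w1 w2 : ℝ}
    (h01 : 0 ≤ w1) (h11 : w1 ≤ 1) (hl1 : w1 * α1 ≤ r1) (hr1 : r1 ≤ w1 * γ) (hW1 : Wt B a x w1)
    (h12 : w2 ≤ 1) (hl2 : w2 * α2 ≤ r2) (hr2 : r2 ≤ w2 * γ)
    (hW2 : Wt B a x w2) (hle : w1 ≤ w2) :
    cn (s1 * r1 + s2 * r2) x ∈ KK B a (s1 * α1 + s2 * α2) γ := by
  set r := s1 * r1 + s2 * r2 with hr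
  set w := max w1 (r / γ) with hw
  have hrγ : r ≤ w2 * γ := by
    have e1 : w1 * γ ≤ w2 * γ := by nlinarith
    calc r ≤ s1 * (w2 * γ) + s2 * (w2 * γ) := by
          rw [hr]
          gcongr
          exact hr1.trans e1
      _ = (s1 + s2) * (w2 * γ) := by ring
      _ = w2 * γ := by rw [hs, one_mul]
  have hww2 : w ≤ w2 := by
    refine max_le hle ?_
    rw [div_le_iff₀ hγ]
    exact hrγ
  have hw1w : w1 ≤ w := le_max_left _ _
  have hlow : w1 * (s1 * α1 + s2 * α2) ≤ r := by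
    have e1 : w1 * α2 ≤ w2 * α2 := by nlinarith
    rw [hr]
    nlinarith [mul_le_mul_of_nonneg_left hl1 hs1, mul_le_mul_of_nonneg_left (e1.trans hl2) hs2]
  have hr0 : 0 ≤ r := le_trans (by positivity) hlow
  have hαγ : s1 * α1 + s2 * α2 ≤ γ := by
    calc s1 * α1 + s2 * α2 ≤ s1 * γ + s2 * γ := by gcongr
      _ = (s1 + s2) * γ := by ring
      _ = γ := by rw [hs, one_mul]
  refine mem_KK.2 ⟨w, h01.trans hw1w, hww2.trans h12, ?_, ?_,
    Wt_mix hB hW1 hW2 h11 h12 hw1w hww2⟩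
  · rcases max_choice w1 (r / γ) with h | h
    · rw [hw, h]; exact hlow
    · rw [hw, h, div_mul_eq_mul_div, div_le_iff₀ hγ]
      exact mul_le_mul_of_nonneg_left hαγ hr0
  · have : r / γ ≤ w := le_max_right _ _
    rwa [div_le_iff₀ hγ] at this

/-- second type: both points on the same side -/
lemma KK_mix2 {B : Set (Fin m → ℝ)} (hB : Convex ℝ B) {a : Fin m → ℝ} {α1 α2 γ s1 s2 : ℝ}
    (hs1 : 0 ≤ s1) (hs2 : 0 ≤ s2) (hs : s1 + s2 = 1) (ha1 : 0 ≤ α1) (ha2 : 0 ≤ α2)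
    (hg1 : α1 ≤ γ) (hg2 : α2 ≤ γ) (hγ : 0 < γ) {x : Fin m → ℝ} {r1 r2 : ℝ}
    (h1 : cn r1 x ∈ KK B a α1 γ) (h2 : cn r2 x ∈ KK B a α2 γ) :
    cn (s1 * r1 + s2 * r2) x ∈ KK B a (s1 * α1 + s2 * α2) γ := by
  obtain ⟨w1, h01, h11, hl1, hr1, hW1⟩ := mem_KK.1 h1
  obtain ⟨w2, h02, h12, hl2, hr2, hW2⟩ := mem_KK.1 h2
  rcases le_total w1 w2 with h | h
  · exact KK_mix2a hB hs1 hs2 hs ha1 ha2 hg1 hg2 hγ h01 h11 hl1 hr1 hW1 h12 hl2 hr2 hW2 h
  · have := KK_mix2a hB hs2 hs1 (by linarith) ha2 ha1 hg2 hg1 hγ h02 h12 hl2 hr2 hW2 h11 hl1 hr1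
      hW1 h
    rw [add_comm (s1 * r1), add_comm (s1 * α1)]
    exact this

end Pool.Agent.TH845.HP
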