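import Pool.Agent.TH845.HP.A2
import Pool.Agent.TH845.HP.B2

set_option autoImplicit false

/-!
The two movements (helper845).
-/

open MeasureTheory Set Filter
open scoped ENNReal Topology Matrix

namespace Pool.Agent.TH845.HP

open Pool.Agent.H131R5.LC (e0)

variable {m : ℕ}

/-- the lifted hull, with speeds `σ₁`, `σ₂` of the two points -/
def KT (B : Set (Fin m → ℝ)) (a : Fin m → ℝ) (α γ σ1 σ2 : ℝ) : Set ((Fin (m + 1) → ℝ) × ℝ) :=
  convexHull ℝ (insert (cn α a, σ1) (insert (cn γ a, σ2) ((fun x => (cn 0 x, (0:ℝ))) '' B)))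

/-- the linear map `(x, σ) ↦ x + t σ e₀` -/
noncomputable def pt (m : ℕ) (t : ℝ) : ((Fin (m + 1) → ℝ) × ℝ) →ₗ[ℝ] (Fin (m + 1) → ℝ) where
  toFun q := q.1 + (t * q.2) • e0 m
  map_add' p q := by simp only [Prod.fst_add, Prod.snd_add]; module
  map_smul' s q := by
    simp only [Prod.smul_fst, Prod.smul_snd, smul_eq_mul, RingHom.id_apply]; module

lemma cn_e0 (r s : ℝ) (x : Fin m → ℝ) : cn r x + s • e0 m = cn (r + s) x := by
  ext i
  refine Fin.cases ?_ (fun j => ?_) i <;> simp [e0]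

lemma St_KT {B : Set (Fin m → ℝ)} (hB : Convex ℝ B) (hne : B.Nonempty) (a : Fin m → ℝ)
    {α γ σ1 σ2 t : ℝ} (h : α + t * σ1 ≤ γ + t * σ2) :
    St (e0 m) (KT B a α γ σ1 σ2) t = KK B a (α + t * σ1) (γ + t * σ2) := by
  have h1 : St (e0 m) (KT B a α γ σ1 σ2) t = (pt m t) '' KT B a α γ σ1 σ2 := rfl
  have h2 : ∀ q, pt m t q = q.1 + (t * q.2) • e0 m := fun q => rfl
  rw [h1, KT, LinearMap.image_convexHull, image_insert_eq, image_insert_eq, image_image, h2, h2,
    cn_e0, cn_e0, ← KK_hull' hB hne a h]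
  congr 3
  refine image_congr fun x _ => ?_
  rw [h2]
  simp

lemma KT_conv (B : Set (Fin m → ℝ)) (a : Fin m → ℝ) (α γ σ1 σ2 : ℝ) :
    Convex ℝ (KT B a α γ σ1 σ2) := convex_convexHull _ _

lemma KT_comp {B : Set (Fin m → ℝ)} (hB : Convex ℝ B) (hne : B.Nonempty) (hc : IsCompact B)
    (a : Fin m → ℝ) (α γ σ1 σ2 : ℝ) : IsCompact (KT B a α γ σ1 σ2) := by
  unfold KT
  refine hull_insert_comp (insert_nonempty _ _) (hull_insert_comp (hne.image _) ?_ _) _
  have hconv : Convex ℝ ((fun x : Fin m → ℝ => (cn 0 x, (0:ℝ))) '' B) := by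
    rintro _ ⟨x, hx, rfl⟩ _ ⟨y, hy, rfl⟩ s t hs ht hst
    refine ⟨s • x + t • y, hB hx hy hs ht hst, ?_⟩
    simp only [Prod.smul_mk, Prod.mk_add_mk, smul_zero, add_zero, cn_smul, cn_add, mul_zero]
  rw [hconv.convexHull_eq]
  exact hc.image ((cn_cont2 0).prodMk continuous_const)

/-- **first movement** -/
theorem type1 {B : Set (Fin m → ℝ)} (hB : Convex ℝ B) (hne : B.Nonempty) (hc : IsCompact B)
    {a : Fin m → ℝ} {α γ c : ℝ} (hα : α < 0) (hγ : 0 < γ) (hcc : 0 < c)
    (hi0 : (interior (KK B a α γ)).Nonempty)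
    (hi1 : (interior (KK B a 0 (γ - α))).Nonempty) (hi2 : (interior (KK B a (α - γ) 0)).Nonempty)
    (h1 : LBI c (KK B a 0 (γ - α))) (h2 : LBI c (KK B a (α - γ) 0)) : LBI c (KK B a α γ) := by
  have e0' : St (e0 m) (KT B a α γ 1 1) 0 = KK B a α γ := by
    rw [St_KT hB hne a (by linarith)]
    simp
  have e1 : St (e0 m) (KT B a α γ 1 1) (-α) = KK B a 0 (γ - α) := by
    rw [St_KT hB hne a (by linarith)]
    congr 1 <;> ring
  have e2 : St (e0 m) (KT B a α γ 1 1) (-γ) = KK B a (α - γ) 0 := by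
    rw [St_KT hB hne a (by linarith)]
    congr 1 <;> ring
  have hα' : 0 < -α := by linarith
  have hs : 0 < γ + -α := by linarith
  have hvol := vol_ineq (KK_comp hB hne hc a (show α - γ ≤ 0 by linarith))
    (KK_comp hB hne hc a (show (0:ℝ) ≤ γ - α by linarith))
    (KK_comp hB hne hc a (show α ≤ γ by linarith))
    (KK_conv hB a _ _) (KK_conv hB a _ _) (KK_conv hB a _ _)
    (s1 := -α / (γ + -α)) (s2 := γ / (γ + -α)) (by positivity) (by positivity) (by
      intro x r1 r2 hr1 hr2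
      have h := KK_mix1 (s1 := -α / (γ + -α)) (s2 := γ / (γ + -α)) (by positivity)
        (by positivity) (by linarith) le_rfl le_rfl (by linarith) hr1 hr2
      have q1 : -α / (γ + -α) * (α - γ) + γ / (γ + -α) * 0 = α := by field_simp; ring
      have q2 : -α / (γ + -α) * 0 + γ / (γ + -α) * (γ - α) = γ := by field_simp; ring
      rw [q1, q2] at h
      exact h) (fun x => ⟨fun h => KK_proj (by linarith) h, fun h => KK_proj (by linarith) h⟩)
  have := shadow (KT_comp hB hne hc a α γ 1 1) (KT_conv B a α γ 1 1) hγ hα' hcc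
    (by rw [e0']; exact hi0) (by rw [e1]; exact hi1) (by rw [e2]; exact hi2) (by
      rw [e0', e1, e2]
      have h3 := mul_le_mul_of_nonneg_left hvol hs.le
      calc -α * (volume (KK B a (α - γ) 0)).toReal + γ * (volume (KK B a 0 (γ - α))).toReal
          = (γ + -α) * (-α / (γ + -α) * (volume (KK B a (α - γ) 0)).toReal +
            γ / (γ + -α) * (volume (KK B a 0 (γ - α))).toReal) := by field_simp
        _ ≤ _ := h3) (by rw [e1]; exact h1) (by rw [e2]; exact h2)
  rw [e0'] at this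
  exact this

/-- **second movement** -/
theorem type2 {B : Set (Fin m → ℝ)} (hB : Convex ℝ B) (hne : B.Nonempty) (hc : IsCompact B)
    {a : Fin m → ℝ} {α γ c : ℝ} (hα : 0 < α) (hγ : α < γ) (hcc : 0 < c)
    (hi0 : (interior (KK B a α γ)).Nonempty)
    (hi1 : (interior (KK B a γ γ)).Nonempty) (hi2 : (interior (KK B a 0 γ)).Nonempty)
    (h1 : LBI c (KK B a γ γ)) (h2 : LBI c (KK B a 0 γ)) : LBI c (KK B a α γ) := by
  have e0' : St (e0 m) (KT B a α γ 1 0) 0 = KK B a α γ := by
    rw [St_KT hB hne a (by linarith)]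
    simp
  have e1 : St (e0 m) (KT B a α γ 1 0) (γ - α) = KK B a γ γ := by
    rw [St_KT hB hne a (by linarith)]
    congr 1 <;> ring
  have e2 : St (e0 m) (KT B a α γ 1 0) (-α) = KK B a 0 γ := by
    rw [St_KT hB hne a (by linarith)]
    congr 1 <;> ring
  have hb : 0 < γ - α := by linarith
  have hγ0 : 0 < γ := by linarith
  have hvol := vol_ineq (KK_comp hB hne hc a (show (0:ℝ) ≤ γ by linarith))
    (KK_comp hB hne hc a (le_refl γ))
    (KK_comp hB hne hc a (show α ≤ γ by linarith))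
    (KK_conv hB a _ _) (KK_conv hB a _ _) (KK_conv hB a _ _)
    (s1 := (γ - α) / γ) (s2 := α / γ) (by positivity) (by positivity) (by
      intro x r1 r2 hr1 hr2
      have h := KK_mix2 hB (s1 := (γ - α) / γ) (s2 := α / γ) (by positivity)
        (by positivity) (by field_simp; ring) le_rfl hγ0.le hγ0.le le_rfl hγ0 hr1 hr2
      have q1 : (γ - α) / γ * 0 + α / γ * γ = α := by field_simp; ring
      rw [q1] at h
      exact h) (fun x => ⟨fun h => KK_proj le_rfl h, fun h => KK_proj hγ0.le h⟩)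
  have := shadow (KT_comp hB hne hc a α γ 1 0) (KT_conv B a α γ 1 0) hα hb hcc
    (by rw [e0']; exact hi0) (by rw [e1]; exact hi1) (by rw [e2]; exact hi2) (by
      rw [e0', e1, e2]
      have h3 := mul_le_mul_of_nonneg_left hvol hγ0.le
      calc (γ - α) * (volume (KK B a 0 γ)).toReal + α * (volume (KK B a γ γ)).toReal
          = γ * ((γ - α) / γ * (volume (KK B a 0 γ)).toReal +
            α / γ * (volume (KK B a γ γ)).toReal) := by field_simp
        _ ≤ γ * (volume (KK B a α γ)).toReal := h3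
        _ = _ := by ring) (by rw [e1]; exact h1) (by rw [e2]; exact h2)
  rw [e0'] at this
  exact this

end Pool.Agent.TH845.HP
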