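import Pool.Agent.H131R5.LC5

set_option autoImplicit false

/-!
Hulls of a convex set in a hyperplane and two points (helper845).
-/

open MeasureTheory Set Filter
open scoped ENNReal Topology Matrix

namespace Pool.Agent.TH845.HP

variable {n m : ℕ}

/-- `x ↦ (r, x)` -/
def cn (r : ℝ) (x : Fin m → ℝ) : Fin (m + 1) → ℝ := Fin.cons r x

@[simp] lemma cn_zero (r : ℝ) (x : Fin m → ℝ) : cn r x 0 = r := rfl

@[simp] lemma cn_succ (r : ℝ) (x : Fin m → ℝ) (i : Fin m) : cn r x i.succ = x i := rfl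

lemma cn_add (r s : ℝ) (x y : Fin m → ℝ) : cn r x + cn s y = cn (r + s) (x + y) := by
  ext i; refine Fin.cases ?_ (fun j => ?_) i <;> simp

lemma cn_smul (t r : ℝ) (x : Fin m → ℝ) : t • cn r x = cn (t * r) (t • x) := by
  ext i; refine Fin.cases ?_ (fun j => ?_) i <;> simp

lemma cn_eta (z : Fin (m + 1) → ℝ) : cn (z 0) (fun i => z i.succ) = z := by
  ext i; refine Fin.cases ?_ (fun j => ?_) i <;> simp

lemma cn_inj {r s : ℝ} {x y : Fin m → ℝ} (h : cn r x = cn s y) : r = s ∧ x = y := by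
  refine ⟨by simpa using congrFun h 0, ?_⟩
  ext i
  simpa using congrFun h i.succ

lemma cn_cont (m : ℕ) : Continuous fun q : ℝ × (Fin m → ℝ) => cn q.1 q.2 :=
  Pool.Agent.H131R5.LC.cont_cons m

/-- the embedding `x ↦ (0, x)` -/
noncomputable def J (m : ℕ) : (Fin m → ℝ) →ₗ[ℝ] (Fin (m + 1) → ℝ) where
  toFun x := cn 0 x
  map_add' x y := by rw [cn_add, add_zero]
  map_smul' t x := by rw [cn_smul, mul_zero]; rfl

@[simp] lemma J_apply (x : Fin m → ℝ) : J m x = cn 0 x := rfl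

/-- nonnegative combinations in a convex set -/
lemma mix {E : Type*} [AddCommGroup E] [Module ℝ E] {B : Set E} (hB : Convex ℝ B) {x y : E}
    (hx : x ∈ B) (hy : y ∈ B) {p q : ℝ} (hp : 0 ≤ p) (hq : 0 ≤ q) :
    ∃ z ∈ B, p • x + q • y = (p + q) • z := by
  rcases eq_or_lt_of_le (add_nonneg hp hq) with h | h
  · have hp0 : p = 0 := by linarith
    have hq0 : q = 0 := by linarith
    exact ⟨x, hx, by simp [hp0, hq0]⟩
  · refine ⟨(p / (p + q)) • x + (q / (p + q)) • y, hB hx hy (by positivity) (by positivity)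
      (by field_simp), ?_⟩
    rw [smul_add, smul_smul, smul_smul, mul_div_cancel₀ _ h.ne', mul_div_cancel₀ _ h.ne']

/-- the possible weights of `a` in a representation of `y` -/
def Wt (B : Set (Fin m → ℝ)) (a y : Fin m → ℝ) (w : ℝ) : Prop :=
  ∃ x ∈ B, y = (1 - w) • x + w • a

lemma Wt_mix {B : Set (Fin m → ℝ)} (hB : Convex ℝ B) {a y : Fin m → ℝ} {w1 w2 w : ℝ}
    (h1 : Wt B a y w1) (h2 : Wt B a y w2) (hw1 : w1 ≤ 1) (hw2 : w2 ≤ 1) (hl : w1 ≤ w)
    (hr : w ≤ w2) : Wt B a y w := by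
  obtain ⟨x1, hx1, e1⟩ := h1
  obtain ⟨x2, hx2, e2⟩ := h2
  rcases eq_or_lt_of_le (hl.trans hr) with h | h
  · have : w = w1 := by linarith
    subst this
    exact ⟨x1, hx1, e1⟩
  set θ := (w - w1) / (w2 - w1) with hθ
  have hd : 0 < w2 - w1 := by linarith
  have h0 : 0 ≤ θ := div_nonneg (by linarith) hd.le
  have h1' : θ ≤ 1 := by rw [hθ, div_le_one hd]; linarith
  have hw : w = (1 - θ) * w1 + θ * w2 := by
    rw [hθ]; field_simp; ring
  obtain ⟨x, hx, e⟩ := mix hB hx1 hx2 (p := (1 - θ) * (1 - w1)) (q := θ * (1 - w2))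
    (mul_nonneg (by linarith) (by linarith)) (mul_nonneg h0 (by linarith))
  refine ⟨x, hx, ?_⟩
  have e3 : (1 - θ) * (1 - w1) + θ * (1 - w2) = 1 - w := by rw [hw]; ring
  rw [e3] at e
  rw [← e]
  calc y = (1 - θ) • y + θ • y := by module
    _ = (1 - θ) • ((1 - w1) • x1 + w1 • a) + θ • ((1 - w2) • x2 + w2 • a) := by
        rw [← e1, ← e2]
    _ = ((1 - θ) * (1 - w1)) • x1 + (θ * (1 - w2)) • x2 + ((1 - θ) * w1 + θ * w2) • a := by
        module
    _ = _ := by rw [← hw]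

/-- the hull of `{0} × B` and the two points `(α, a)`, `(γ, a)` -/
def KK (B : Set (Fin m → ℝ)) (a : Fin m → ℝ) (α γ : ℝ) : Set (Fin (m + 1) → ℝ) :=
  {z | ∃ w : ℝ, 0 ≤ w ∧ w ≤ 1 ∧ w * α ≤ z 0 ∧ z 0 ≤ w * γ ∧ Wt B a (fun i => z i.succ) w}

lemma mem_KK {B : Set (Fin m → ℝ)} {a : Fin m → ℝ} {α γ r : ℝ} {y : Fin m → ℝ} :
    cn r y ∈ KK B a α γ ↔ ∃ w : ℝ, 0 ≤ w ∧ w ≤ 1 ∧ w * α ≤ r ∧ r ≤ w * γ ∧ Wt B a y w := Iff.rfl

lemma Wt_comb {B : Set (Fin m → ℝ)} (hB : Convex ℝ B) {a y1 y2 : Fin m → ℝ} {w1 w2 s1 s2 : ℝ}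
    (h1 : Wt B a y1 w1) (h2 : Wt B a y2 w2) (hw1 : w1 ≤ 1) (hw2 : w2 ≤ 1) (hs1 : 0 ≤ s1)
    (hs2 : 0 ≤ s2) (hs : s1 + s2 = 1) :
    Wt B a (s1 • y1 + s2 • y2) (s1 * w1 + s2 * w2) := by
  obtain ⟨x1, hx1, e1⟩ := h1
  obtain ⟨x2, hx2, e2⟩ := h2
  obtain ⟨x, hx, e⟩ := mix hB hx1 hx2 (p := s1 * (1 - w1)) (q := s2 * (1 - w2))
    (mul_nonneg hs1 (by linarith)) (mul_nonneg hs2 (by linarith))
  refine ⟨x, hx, ?_⟩
  have e3 : s1 * (1 - w1) + s2 * (1 - w2) = 1 - (s1 * w1 + s2 * w2) := by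
    have : s2 = 1 - s1 := by linarith
    rw [this]; ring
  rw [e3] at e
  rw [← e, e1, e2]
  module

lemma KK_conv {B : Set (Fin m → ℝ)} (hB : Convex ℝ B) (a : Fin m → ℝ) (α γ : ℝ) :
    Convex ℝ (KK B a α γ) := by
  rintro z1 ⟨w1, h01, h11, hl1, hr1, hW1⟩ z2 ⟨w2, h02, h12, hl2, hr2, hW2⟩ s1 s2 hs1 hs2 hs
  refine ⟨s1 * w1 + s2 * w2, by positivity, by nlinarith, ?_, ?_, ?_⟩
  · simp only [Pi.add_apply, Pi.smul_apply, smul_eq_mul]
    nlinarith [mul_le_mul_of_nonneg_left hl1 hs1, mul_le_mul_of_nonneg_left hl2 hs2]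
  · simp only [Pi.add_apply, Pi.smul_apply, smul_eq_mul]
    nlinarith [mul_le_mul_of_nonneg_left hr1 hs1, mul_le_mul_of_nonneg_left hr2 hs2]
  · exact Wt_comb hB hW1 hW2 h11 h12 hs1 hs2 hs

/-- **description of the hull** -/
theorem KK_hull {G : Set (Fin m → ℝ)} (hG : G.Nonempty) (a : Fin m → ℝ) {α γ : ℝ} (h : α ≤ γ) :
    convexHull ℝ (insert (cn α a) (insert (cn γ a) (J m '' G))) = KK (convexHull ℝ G) a α γ := by
  apply Subset.antisymm
  · refine convexHull_min ?_ (KK_conv (convex_convexHull ℝ G) a α γ)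
    obtain ⟨g0, hg0⟩ := hG
    rintro z (rfl | rfl | ⟨g, hg, rfl⟩)
    · refine mem_KK.2 ⟨1, zero_le_one, le_rfl, by simp, by simpa using h, g0,
        subset_convexHull ℝ G hg0, by simp⟩
    · refine mem_KK.2 ⟨1, zero_le_one, le_rfl, by simpa using h, by simp, g0,
        subset_convexHull ℝ G hg0, by simp⟩
    · rw [J_apply]
      exact mem_KK.2 ⟨0, le_rfl, zero_le_one, by simp, by simp, g, subset_convexHull ℝ G hg,
        by simp⟩
  · intro z
    rw [← cn_eta z]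
    intro hz
    obtain ⟨w, h0, h1, hl, hr, x, hx, e⟩ := mem_KK.1 hz
    set X := insert (cn α a) (insert (cn γ a) (J m '' G)) with hX
    have hc : Convex ℝ (convexHull ℝ X) := convex_convexHull ℝ X
    have hJ : cn 0 x ∈ convexHull ℝ X := by
      have h2 : J m '' convexHull ℝ G ⊆ convexHull ℝ X := by
        rw [LinearMap.image_convexHull]
        exact convexHull_mono (by rw [hX]; intro y hy; exact Or.inr (Or.inr hy))
      exact h2 ⟨x, hx, rfl⟩
    have hα : cn α a ∈ convexHull ℝ X := subset_convexHull ℝ X (Or.inl rfl)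
    have hγ : cn γ a ∈ convexHull ℝ X := subset_convexHull ℝ X (Or.inr (Or.inl rfl))
    rw [e]
    rcases eq_or_lt_of_le h0 with hw | hw
    · have hz0 : z 0 = 0 := by
        rw [← hw] at hl hr
        simp only [zero_mul] at hl hr
        linarith
      rw [hz0, ← hw]
      simpa using hJ
    -- `z 0 = w ρ`
    set ρ := z 0 / w with hρ
    have hzρ : z 0 = w * ρ := by rw [hρ]; field_simp
    have hρ1 : α ≤ ρ := by rw [hρ, le_div_iff₀ hw]; linarith
    have hρ2 : ρ ≤ γ := by rw [hρ, div_le_iff₀ hw]; linarith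
    have hmem : cn ρ a ∈ convexHull ℝ X := by
      rcases eq_or_lt_of_le h with h' | h'
      · have : ρ = α := by linarith
        rw [this]; exact hα
      · have hd : 0 < γ - α := by linarith
        have h3 := hc hα hγ (a := (γ - ρ) / (γ - α)) (b := (ρ - α) / (γ - α))
          (div_nonneg (by linarith) hd.le) (div_nonneg (by linarith) hd.le) (by
            field_simp; ring)
        have h4 : ((γ - ρ) / (γ - α)) • cn α a + ((ρ - α) / (γ - α)) • cn γ a = cn ρ a := by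
          rw [cn_smul, cn_smul, cn_add, ← add_smul]
          congr 1
          · field_simp; ring
          · have : (γ - ρ) / (γ - α) + (ρ - α) / (γ - α) = 1 := by field_simp; ring
            rw [this, one_smul]
        rw [h4] at h3
        exact h3
    have h5 := hc hJ hmem (a := 1 - w) (b := w) (by linarith) h0 (by ring)
    have h6 : (1 - w) • cn 0 x + w • cn ρ a = cn (z 0) ((1 - w) • x + w • a) := by
      rw [cn_smul, cn_smul, cn_add, mul_zero, zero_add, ← hzρ]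
    rw [h6] at h5
    exact h5

lemma KK_hull' {B : Set (Fin m → ℝ)} (hB : Convex ℝ B) (hne : B.Nonempty) (a : Fin m → ℝ)
    {α γ : ℝ} (h : α ≤ γ) :
    convexHull ℝ (insert (cn α a) (insert (cn γ a) (J m '' B))) = KK B a α γ := by
  rw [KK_hull hne a h, hB.convexHull_eq]

/-- pyramids: one of the two points in the hyperplane -/
lemma KK_pyr {B : Set (Fin m → ℝ)} (hB : Convex ℝ B) (hne : B.Nonempty) (a : Fin m → ℝ)
    {γ : ℝ} (h : 0 ≤ γ) : KK B a 0 γ = KK (convexHull ℝ (insert a B)) a γ γ := by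
  rw [← KK_hull' hB hne a h, ← KK_hull (insert_nonempty a B) a le_rfl, insert_idem,
    image_insert_eq, J_apply, insert_comm]

lemma KK_pyr' {B : Set (Fin m → ℝ)} (hB : Convex ℝ B) (hne : B.Nonempty) (a : Fin m → ℝ)
    {γ : ℝ} (h : γ ≤ 0) : KK B a γ 0 = KK (convexHull ℝ (insert a B)) a γ γ := by
  rw [← KK_hull' hB hne a h, ← KK_hull (insert_nonempty a B) a le_rfl, insert_idem,
    image_insert_eq, J_apply]

/-- compactness of the hull of a compact convex set and a point -/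
lemma hull_insert_comp {E : Type*} [AddCommGroup E] [Module ℝ E] [TopologicalSpace E]
    [IsTopologicalAddGroup E] [ContinuousSMul ℝ E] {S : Set E} (hne : S.Nonempty)
    (h : IsCompact (convexHull ℝ S)) (w : E) : IsCompact (convexHull ℝ (insert w S)) := by
  rw [convexHull_insert hne]
  have e : convexJoin ℝ {w} (convexHull ℝ S) =
      (fun q : ℝ × E => (1 - q.1) • w + q.1 • q.2) '' (Icc (0:ℝ) 1 ×ˢ convexHull ℝ S) := by
    ext x
    rw [mem_convexJoin]
    constructor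
    · rintro ⟨w', rfl, y, hy, s, t, hs, ht, hst, rfl⟩
      refine ⟨(t, y), ⟨⟨ht, by linarith⟩, hy⟩, ?_⟩
      simp only
      rw [show 1 - t = s by linarith]
    · rintro ⟨⟨t, y⟩, ⟨⟨ht0, ht1⟩, hy⟩, rfl⟩
      exact ⟨w, rfl, y, hy, 1 - t, t, by simp only at ht1; linarith, ht0, by ring, rfl⟩
  rw [e]
  exact (isCompact_Icc.prod h).image (by fun_prop)

lemma KK_comp {B : Set (Fin m → ℝ)} (hB : Convex ℝ B) (hne : B.Nonempty) (hc : IsCompact B)
    (a : Fin m → ℝ) {α γ : ℝ} (h : α ≤ γ) : IsCompact (KK B a α γ) := by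
  rw [← KK_hull' hB hne a h]
  refine hull_insert_comp (insert_nonempty _ _) (hull_insert_comp (hne.image _) ?_ _) _
  rw [← LinearMap.image_convexHull, hB.convexHull_eq]
  exact hc.image ((cn_cont m).comp (by fun_prop : Continuous fun x : Fin m → ℝ => ((0:ℝ), x)))

end Pool.Agent.TH845.HP
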