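import Pool.Agent.TH845.HP.A1
import Pool.Agent.H131R5.LC7

set_option autoImplicit false

/-!
Affine invariance of `M_∞` (helper845).
-/

open MeasureTheory Set Filter
open scoped ENNReal Topology Matrix

namespace Pool.Agent.TH845.HP

open Pool.Agent.H131R5.LC (tr tr_dot det_tr vol_sub)

variable {n m : ℕ}

lemma sf_cont {K : Set (Fin n → ℝ)} (hK : IsCompact K) : Continuous (sf K) := by
  unfold sf
  refine IsCompact.continuous_sSup (f := fun (y x : Fin n → ℝ) => x ⬝ᵥ y) hK ?_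
  have h1 : Continuous fun r : (Fin n → ℝ) × (Fin n → ℝ) => r.2 ⬝ᵥ r.1 := by
    unfold dotProduct
    fun_prop
  exact h1

lemma meas_F {K : Set (Fin n → ℝ)} (hK : IsCompact K) (z : Fin n → ℝ) :
    Measurable fun y => ENNReal.ofReal (Real.exp (z ⬝ᵥ y - sf K y)) :=
  (Real.continuous_exp.comp ((cont_dot' z).sub (sf_cont hK))).measurable.ennreal_ofReal

lemma sf_image (A : (Fin n → ℝ) →ₗ[ℝ] (Fin n → ℝ)) (K : Set (Fin n → ℝ)) (y : Fin n → ℝ) :
    sf (A '' K) y = sf K (tr A y) := by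
  unfold sf
  rw [image_image]
  congr 1
  exact image_congr fun x _ => tr_dot A x y

/-- `M_∞` is invariant under linear automorphisms -/
theorem MI_image (A : (Fin n → ℝ) ≃ₗ[ℝ] (Fin n → ℝ)) {K : Set (Fin n → ℝ)} (hK : IsCompact K)
    (z : Fin n → ℝ) : MI (A '' K) (A z) = MI K z := by
  unfold MI
  have himg : (A '' K) = ((A : (Fin n → ℝ) →ₗ[ℝ] (Fin n → ℝ)) '' K) := rfl
  set T := tr (A : (Fin n → ℝ) →ₗ[ℝ] (Fin n → ℝ)) with hT
  have e0 : ∀ y, A z ⬝ᵥ y - sf (A '' K) y = z ⬝ᵥ T y - sf K (T y) := by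
    intro y
    rw [himg, sf_image]
    have h1 : A z ⬝ᵥ y = z ⬝ᵥ T y := tr_dot (A : (Fin n → ℝ) →ₗ[ℝ] (Fin n → ℝ)) z y
    rw [h1]
  simp_rw [e0]
  have hdet : LinearMap.det (A : (Fin n → ℝ) →ₗ[ℝ] (Fin n → ℝ)) ≠ 0 :=
    (LinearEquiv.isUnit_det' A).ne_zero
  have hdetT : LinearMap.det T ≠ 0 := by rw [hT, det_tr]; exact hdet
  have hm := meas_F hK z
  have h1 : ∫⁻ y, ENNReal.ofReal (Real.exp (z ⬝ᵥ T y - sf K (T y))) =
      ENNReal.ofReal |(LinearMap.det T)⁻¹| *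
        ∫⁻ y, ENNReal.ofReal (Real.exp (z ⬝ᵥ y - sf K y)) := by
    rw [← lintegral_map (μ := volume) hm (by
      exact (LinearMap.continuous_of_finiteDimensional T).measurable),
      Real.map_linearMap_volume_pi_eq_smul_volume_pi hdetT, lintegral_smul_measure, smul_eq_mul]
  rw [h1, himg, Measure.addHaar_image_linearMap, hT, det_tr, abs_inv]
  set d := |LinearMap.det (A : (Fin n → ℝ) →ₗ[ℝ] (Fin n → ℝ))| with hd
  have hd0 : 0 < d := abs_pos.2 hdet
  have h2 : ENNReal.ofReal d * volume K * (ENNReal.ofReal d⁻¹ *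
      ∫⁻ y, ENNReal.ofReal (Real.exp (z ⬝ᵥ y - sf K y))) =
      (ENNReal.ofReal d * ENNReal.ofReal d⁻¹) * (volume K *
        ∫⁻ y, ENNReal.ofReal (Real.exp (z ⬝ᵥ y - sf K y))) := by
    ring
  rw [h2, ← ENNReal.ofReal_mul hd0.le, mul_inv_cancel₀ hd0.ne', ENNReal.ofReal_one, one_mul]

lemma sf_sub {K : Set (Fin n → ℝ)} (hK : IsCompact K) (hne : K.Nonempty) (p y : Fin n → ℝ) :
    sf ((fun x => x - p) '' K) y = sf K y - p ⬝ᵥ y := by
  have hc : IsCompact ((fun x => x - p) '' K) := hK.image (by fun_prop)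
  apply le_antisymm
  · refine sf_le (hne.image _) ?_
    rintro _ ⟨x, hx, rfl⟩
    simp only
    rw [sub_dotProduct]
    linarith [le_sf hK hx y]
  · have : sf K y ≤ sf ((fun x => x - p) '' K) y + p ⬝ᵥ y := by
      refine sf_le hne fun x hx => ?_
      have := le_sf hc ⟨x, hx, rfl⟩ y
      simp only at this
      rw [sub_dotProduct] at this
      linarith
    linarith

lemma MI_sub {K : Set (Fin n → ℝ)} (hK : IsCompact K) (hne : K.Nonempty) (p z : Fin n → ℝ) :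
    MI ((fun x => x - p) '' K) (z - p) = MI K z := by
  unfold MI
  rw [vol_sub]
  congr 1
  refine lintegral_congr fun y => ?_
  rw [sf_sub hK hne, sub_dotProduct]
  congr 2
  ring

/-- affine maps -/
lemma MI_aff (Φ : (Fin n → ℝ) ≃ₗ[ℝ] (Fin n → ℝ)) (p : Fin n → ℝ) {K : Set (Fin n → ℝ)}
    (hK : IsCompact K) (hne : K.Nonempty) (z : Fin n → ℝ) :
    MI ((fun x => Φ (x - p)) '' K) (Φ (z - p)) = MI K z := by
  have h1 : (fun x => Φ (x - p)) '' K = Φ '' ((fun x => x - p) '' K) := by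
    rw [image_image]
  rw [h1, MI_image Φ (hK.image (by fun_prop)), MI_sub hK hne]

lemma LBI_aff (Φ : (Fin n → ℝ) ≃ₗ[ℝ] (Fin n → ℝ)) (p : Fin n → ℝ) {K : Set (Fin n → ℝ)}
    (hK : IsCompact K) (hne : K.Nonempty) {c : ℝ}
    (h : LBI c ((fun x => Φ (x - p)) '' K)) : LBI c K := by
  intro z
  rw [← MI_aff Φ p hK hne z]
  exact h _

lemma LBI_image (Φ : (Fin n → ℝ) ≃ₗ[ℝ] (Fin n → ℝ)) {K : Set (Fin n → ℝ)}
    (hK : IsCompact K) {c : ℝ} (h : LBI c K) : LBI c (Φ '' K) := by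
  intro z
  have := MI_image Φ hK (Φ.symm z)
  rw [Φ.apply_symm_apply] at this
  rw [this]
  exact h _

lemma int_image (Φ : (Fin n → ℝ) ≃ₗ[ℝ] (Fin n → ℝ)) (K : Set (Fin n → ℝ)) :
    Φ '' interior K = interior (Φ '' K) :=
  (Φ.toContinuousLinearEquiv.toHomeomorph).image_interior K

lemma int_aff (Φ : (Fin n → ℝ) ≃ₗ[ℝ] (Fin n → ℝ)) (p : Fin n → ℝ) (K : Set (Fin n → ℝ)) :
    (fun x => Φ (x - p)) '' interior K = interior ((fun x => Φ (x - p)) '' K) := by
  have h1 : ∀ S : Set (Fin n → ℝ), (fun x => Φ (x - p)) '' S = Φ '' ((fun x => x - p) '' S) :=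
    fun S => by rw [image_image]
  rw [h1, h1, ← int_image]
  congr 1
  exact (Homeomorph.subRight p).image_interior K

/-- a convex set of positive volume has interior points -/
lemma int_of_vol {K : Set (Fin n → ℝ)} (hv : Convex ℝ K) (h : volume K ≠ 0) :
    (interior K).Nonempty := by
  by_contra hcon
  rw [not_nonempty_iff_eq_empty] at hcon
  apply h
  have h1 := hv.addHaar_frontier (μ := (volume : Measure (Fin n → ℝ)))
  have h2 : K ⊆ frontier K := by
    rw [frontier, hcon, diff_empty]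
    exact subset_closure
  exact measure_mono_null h2 h1

lemma vol_of_int {K : Set (Fin n → ℝ)} (h : (interior K).Nonempty) : volume K ≠ 0 :=
  (Measure.measure_pos_of_nonempty_interior _ h).ne'

end Pool.Agent.TH845.HP
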