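import Pool.Agent.TH845.HP.C1
import Pool.Agent.TH845.HP.B2

set_option autoImplicit false

/-!
Pyramids (helper845).
-/

open MeasureTheory Set Filter
open scoped ENNReal Topology Matrix Pointwise

namespace Pool.Agent.TH845.HP

open Pool.Agent.PZ871.PLaux (lintegral_succ)

variable {m : ℕ}

/-- the normalised pyramid over `Q` -/
def Py (Q : Set (Fin m → ℝ)) : Set (Fin (m + 1) → ℝ) := KK Q 0 1 1

lemma mem_Py {Q : Set (Fin m → ℝ)} {r : ℝ} {y : Fin m → ℝ} :
    cn r y ∈ Py Q ↔ 0 ≤ r ∧ r ≤ 1 ∧ ∃ x ∈ Q, y = (1 - r) • x := by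
  unfold Py
  rw [mem_KK]
  constructor
  · rintro ⟨w, h0, h1, hl, hr, x, hx, e⟩
    have hw : w = r := by linarith
    subst hw
    exact ⟨h0, h1, x, hx, by simpa using e⟩
  · rintro ⟨h0, h1, x, hx, e⟩
    exact ⟨r, h0, h1, by linarith, by linarith, x, hx, by simpa using e⟩

lemma cn_dot (r s : ℝ) (x y : Fin m → ℝ) : cn r x ⬝ᵥ cn s y = r * s + x ⬝ᵥ y := by
  unfold dotProduct
  rw [Fin.sum_univ_succ]
  simp

lemma sf_smul {Q : Set (Fin m → ℝ)} (hQ : IsCompact Q) (hne : Q.Nonempty) {κ : ℝ} (hκ : 0 ≤ κ)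
    (y : Fin m → ℝ) : sf Q (κ • y) = κ * sf Q y := by
  apply le_antisymm
  · refine sf_le hne fun x hx => ?_
    rw [dotProduct_smul, smul_eq_mul]
    exact mul_le_mul_of_nonneg_left (le_sf hQ hx y) hκ
  · rcases eq_or_lt_of_le hκ with h | h
    · rw [← h, zero_mul]
      obtain ⟨x, hx⟩ := hne
      have := le_sf hQ hx ((0:ℝ) • y)
      simpa using this
    · have h1 : sf Q y ≤ κ⁻¹ * sf Q (κ • y) := by
        refine sf_le hne fun x hx => ?_
        have := le_sf hQ hx (κ • y)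
        rw [dotProduct_smul, smul_eq_mul] at this
        rw [← div_eq_inv_mul, le_div_iff₀ h]
        linarith
      calc κ * sf Q y ≤ κ * (κ⁻¹ * sf Q (κ • y)) := by gcongr
        _ = sf Q (κ • y) := by field_simp

lemma Py_comp {Q : Set (Fin m → ℝ)} (hv : Convex ℝ Q) (hQ : IsCompact Q) (hne : Q.Nonempty) :
    IsCompact (Py Q) := KK_comp hv hne hQ 0 le_rfl

lemma sf_Py {Q : Set (Fin m → ℝ)} (hv : Convex ℝ Q) (hQ : IsCompact Q) (hne : Q.Nonempty)
    (s : ℝ) (v : Fin m → ℝ) : sf (Py Q) (cn s v) = max s (sf Q v) := by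
  have hc := Py_comp hv hQ hne
  have hne' : (Py Q).Nonempty := by
    obtain ⟨x, hx⟩ := hne
    exact ⟨cn 1 0, mem_Py.2 ⟨zero_le_one, le_rfl, x, hx, by simp⟩⟩
  apply le_antisymm
  · refine sf_le hne' fun z hz => ?_
    rw [← cn_eta z] at hz ⊢
    obtain ⟨h0, h1, x, hx, e⟩ := mem_Py.1 hz
    rw [e, cn_dot, smul_dotProduct, smul_eq_mul]
    have h2 := le_sf hQ hx v
    have h3 := le_max_left s (sf Q v)
    have h4 := le_max_right s (sf Q v)
    have h5 : 0 ≤ 1 - z 0 := by linarith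
    nlinarith [mul_le_mul_of_nonneg_left h3 h0, mul_le_mul_of_nonneg_left (h2.trans h4) h5]
  · refine max_le ?_ ?_
    · obtain ⟨x, hx⟩ := hne
      have := le_sf hc (mem_Py.2 ⟨zero_le_one, le_rfl, x, hx, by simp⟩ : cn 1 0 ∈ Py Q) (cn s v)
      rw [cn_dot] at this
      simpa using this
    · refine sf_le hne fun x hx => ?_
      have := le_sf hc (mem_Py.2 ⟨le_rfl, zero_le_one, x, hx, by simp⟩ : cn 0 x ∈ Py Q) (cn s v)
      rw [cn_dot] at this
      simpa using this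

/-- the one-dimensional integral -/
lemma inner_int {τ : ℝ} (h0 : 0 < τ) (h1 : τ < 1) (H : ℝ) :
    ∫⁻ s : ℝ, ENNReal.ofReal (Real.exp (τ * s - max s H)) =
      ENNReal.ofReal (Real.exp (-((1 - τ) * H)) / (τ * (1 - τ))) := by
  have h1' : 0 < 1 - τ := by linarith
  rw [← lintegral_add_compl _ (measurableSet_Iic (a := H)), compl_Iic]
  have e1 : ∫⁻ s in Iic H, ENNReal.ofReal (Real.exp (τ * s - max s H)) =
      ENNReal.ofReal (Real.exp (-H) * (Real.exp (τ * H) / τ)) := by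
    rw [← integral_exp_mul_Iic h0 H, ← integral_const_mul,
      ofReal_integral_eq_lintegral_ofReal ((integrableOn_exp_mul_Iic h0 H).const_mul _)
      (Eventually.of_forall fun s => by positivity)]
    refine setLIntegral_congr_fun measurableSet_Iic fun s hs => ?_
    rw [max_eq_right hs, ← Real.exp_add]
    congr 2
    ring
  have e2 : ∫⁻ s in Ioi H, ENNReal.ofReal (Real.exp (τ * s - max s H)) =
      ENNReal.ofReal (-Real.exp ((τ - 1) * H) / (τ - 1)) := by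
    rw [← integral_exp_mul_Ioi (by linarith : τ - 1 < 0) H,
      ofReal_integral_eq_lintegral_ofReal (integrableOn_exp_mul_Ioi (by linarith) H)
      (Eventually.of_forall fun s => by positivity)]
    refine setLIntegral_congr_fun measurableSet_Ioi fun s hs => ?_
    rw [max_eq_left (le_of_lt hs)]
    congr 2
    ring
  rw [e1, e2, ← ENNReal.ofReal_add (by positivity) (by
    rw [neg_div, ← div_neg]
    exact div_nonneg (Real.exp_pos _).le (by linarith))]
  congr 1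
  have e3 : Real.exp (-H) * (Real.exp (τ * H) / τ) = Real.exp (-((1 - τ) * H)) / τ := by
    rw [← mul_div_assoc, ← Real.exp_add]
    congr 2
    ring
  have e4 : (τ - 1) * H = -((1 - τ) * H) := by ring
  rw [e3, e4]
  have h2 : τ - 1 ≠ 0 := by linarith
  have h3 : (1 - τ) ≠ 0 := h1'.ne'
  field_simp
  ring

/-- the volume of the normalised pyramid -/
lemma vol_Py {Q : Set (Fin m → ℝ)} (hv : Convex ℝ Q) (hQ : IsCompact Q) (hne : Q.Nonempty) :
    volume (Py Q) = ENNReal.ofReal (1 / (m + 1)) * volume Q := by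
  rw [vol_sec (Py_comp hv hQ hne).measurableSet]
  have h1 : ∀ r : ℝ, volume {x : Fin m → ℝ | cn r x ∈ Py Q} =
      (Icc (0:ℝ) 1).indicator (fun r => ENNReal.ofReal ((1 - r) ^ m) * volume Q) r := by
    intro r
    by_cases hr : r ∈ Icc (0:ℝ) 1
    · rw [indicator_of_mem hr]
      have e : {x : Fin m → ℝ | cn r x ∈ Py Q} = (1 - r) • Q := by
        ext x
        simp only [mem_setOf_eq]
        rw [mem_Py, mem_smul_set]
        constructor
        · rintro ⟨-, -, q, hq, e⟩; exact ⟨q, hq, e.symm⟩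
        · rintro ⟨q, hq, e⟩; exact ⟨hr.1, hr.2, q, hq, e.symm⟩
      rw [e, Measure.addHaar_smul, Module.finrank_fin_fun, abs_of_nonneg]
      exact pow_nonneg (by linarith [hr.2]) _
    · rw [indicator_of_notMem hr]
      have e : {x : Fin m → ℝ | cn r x ∈ Py Q} = ∅ := by
        ext x
        simp only [mem_setOf_eq, mem_empty_iff_false, iff_false]
        intro h
        obtain ⟨h0, h1, -⟩ := mem_Py.1 h
        exact hr ⟨h0, h1⟩
      rw [e, measure_empty]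
  simp_rw [h1]
  rw [lintegral_indicator measurableSet_Icc, lintegral_mul_const _ (by fun_prop)]
  congr 1
  rw [← ofReal_integral_eq_lintegral_ofReal]
  · congr 1
    rw [integral_Icc_eq_integral_Ioc, ← intervalIntegral.integral_of_le zero_le_one]
    have := intervalIntegral.integral_comp_sub_left (a := (0:ℝ)) (b := 1) (fun r : ℝ => r ^ m) 1
    rw [this]
    simp
  · exact (by fun_prop : Continuous fun r : ℝ => (1 - r) ^ m).continuousOn.integrableOn_compact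
      isCompact_Icc
  · refine (ae_restrict_iff' measurableSet_Icc).2 (Eventually.of_forall fun r hr => ?_)
    exact pow_nonneg (by linarith [hr.2]) _

/-- dilation of the integral -/
lemma dil_int {Q : Set (Fin m → ℝ)} (hQ : IsCompact Q) (hne : Q.Nonempty) {κ : ℝ} (hκ : 0 < κ)
    (ζ : Fin m → ℝ) :
    ∫⁻ v, ENNReal.ofReal (Real.exp (κ * (ζ ⬝ᵥ v) - κ * sf Q v)) =
      ENNReal.ofReal ((κ ^ m)⁻¹) * ∫⁻ v, ENNReal.ofReal (Real.exp (ζ ⬝ᵥ v - sf Q v)) := by
  have h1 := lintegral_map (μ := (volume : Measure (Fin m → ℝ))) (meas_F hQ ζ)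
    (measurable_const_smul κ : Measurable fun v : Fin m → ℝ => κ • v)
  rw [Measure.map_addHaar_smul _ hκ.ne', lintegral_smul_measure, smul_eq_mul,
    Module.finrank_fin_fun, abs_of_pos (by positivity)] at h1
  rw [h1]
  refine lintegral_congr fun v => ?_
  rw [sf_smul hQ hne hκ.le, dotProduct_smul, smul_eq_mul]

/-- maximum of `τ (1-τ)^(m+1)` -/
lemma tau_max (m : ℕ) {τ : ℝ} (h0 : 0 < τ) (h1 : τ < 1) :
    τ * (1 - τ) ^ (m + 1) ≤ ((m:ℝ) + 1) ^ (m + 1) / ((m:ℝ) + 2) ^ (m + 2) := by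
  have hm : (0:ℝ) < (m:ℝ) + 1 := by positivity
  -- weighted AM-GM
  have h1' : 0 < 1 - τ := by linarith
  have h2 := Real.geom_mean_le_arith_mean2_weighted (w₁ := 1 / ((m:ℝ) + 2))
    (w₂ := ((m:ℝ) + 1) / ((m:ℝ) + 2)) (p₁ := ((m:ℝ) + 1) * τ) (p₂ := 1 - τ) (by positivity)
    (by positivity) (by positivity) h1'.le (by field_simp; ring)
  have h3 : 1 / ((m:ℝ) + 2) * (((m:ℝ) + 1) * τ) + ((m:ℝ) + 1) / ((m:ℝ) + 2) * (1 - τ) =
      ((m:ℝ) + 1) / ((m:ℝ) + 2) := by field_simp; ring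
  rw [h3] at h2
  have h4 := Real.rpow_le_rpow (by positivity) h2 (by positivity : (0:ℝ) ≤ (m:ℝ) + 2)
  rw [Real.mul_rpow (by positivity) (by positivity), ← Real.rpow_mul (by positivity),
    ← Real.rpow_mul h1'.le] at h4
  have e1 : 1 / ((m:ℝ) + 2) * ((m:ℝ) + 2) = 1 := by field_simp
  have e2 : ((m:ℝ) + 1) / ((m:ℝ) + 2) * ((m:ℝ) + 2) = ((m + 1 : ℕ) : ℝ) := by
    push_cast; field_simp
  have e3 : ((m:ℝ) + 2) = ((m + 2 : ℕ) : ℝ) := by push_cast; ring
  rw [e1, e2, Real.rpow_one, Real.rpow_natCast] at h4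
  have h5 : (((m:ℝ) + 1) / ((m:ℝ) + 2)) ^ ((m:ℝ) + 2) =
      ((m:ℝ) + 1) ^ (m + 2) / ((m:ℝ) + 2) ^ (m + 2) := by
    rw [← div_pow, ← Real.rpow_natCast, e3]
  rw [h5] at h4
  have h6 : ((m:ℝ) + 1) * (τ * (1 - τ) ^ (m + 1)) ≤
      ((m:ℝ) + 1) * (((m:ℝ) + 1) ^ (m + 1) / ((m:ℝ) + 2) ^ (m + 2)) := by
    calc ((m:ℝ) + 1) * (τ * (1 - τ) ^ (m + 1)) = ((m:ℝ) + 1) * τ * (1 - τ) ^ (m + 1) := by ring
      _ ≤ _ := h4
      _ = _ := by ring
  exact le_of_mul_le_mul_left h6 hm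

/-- **the pyramid step** -/
theorem LBI_Py {Q : Set (Fin m → ℝ)} (hv : Convex ℝ Q) (hQ : IsCompact Q)
    (hi : (interior Q).Nonempty) {c : ℝ} (hc : 0 < c) (h : LBI c Q) :
    LBI (c * (((m:ℝ) + 2) ^ (m + 2) / ((m:ℝ) + 1) ^ (m + 2))) (Py Q) := by
  have hne : Q.Nonempty := hi.mono interior_subset
  have hcP := Py_comp hv hQ hne
  have hvP : Convex ℝ (Py Q) := KK_conv hv 0 1 1
  have hQpos : volume Q ≠ 0 := vol_of_int hi
  have hiP : (interior (Py Q)).Nonempty := by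
    apply int_of_vol hvP
    rw [vol_Py hv hQ hne]
    refine mul_ne_zero ?_ hQpos
    rw [ENNReal.ofReal_ne_zero_iff]
    positivity
  intro z
  by_cases hz : z ∈ interior (Py Q)
  swap
  · rw [MI_top hvP hcP hiP hz]; exact le_top
  set τ := z 0 with hτ
  set ζ0 : Fin m → ℝ := fun i => z i.succ with hζ0
  have hze : z = cn τ ζ0 := (cn_eta z).symm
  -- `0 < τ < 1`
  have hτ01 : 0 < τ ∧ τ < 1 := by
    obtain ⟨r, hr, hrP⟩ := Metric.mem_nhds_iff.1 (mem_interior_iff_mem_nhds.1 hz)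
    have hmem : ∀ s : ℝ, |s| < r → cn (τ + s) ζ0 ∈ Py Q := by
      intro s hs
      apply hrP
      rw [mem_ball_iff_norm, hze]
      have e : cn (τ + s) ζ0 - cn τ ζ0 = cn s 0 := by
        ext i; refine Fin.cases ?_ (fun j => ?_) i <;> simp
      rw [e]
      refine lt_of_le_of_lt ?_ hs
      rw [pi_norm_le_iff_of_nonneg (abs_nonneg s)]
      intro i
      refine Fin.cases ?_ (fun j => ?_) i <;> simp
    have h1 := (mem_Py.1 (hmem (r / 2) (by rw [abs_of_pos (by positivity)]; linarith))).2.1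
    have h2 := (mem_Py.1 (hmem (-(r / 2)) (by
      rw [abs_neg, abs_of_pos (by positivity)]; linarith))).1
    constructor <;> linarith
  obtain ⟨h0, h1⟩ := hτ01
  have h1' : 0 < 1 - τ := by linarith
  set ζ : Fin m → ℝ := (1 - τ)⁻¹ • ζ0 with hζ
  have hζζ : ζ0 = (1 - τ) • ζ := by rw [hζ, smul_smul, mul_inv_cancel₀ h1'.ne', one_smul]
  have hint : ∫⁻ y, ENNReal.ofReal (Real.exp (z ⬝ᵥ y - sf (Py Q) y)) =
      ENNReal.ofReal (1 / (τ * (1 - τ) ^ (m + 1))) *
        ∫⁻ v, ENNReal.ofReal (Real.exp (ζ ⬝ᵥ v - sf Q v)) := by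
    have hmF := meas_F hcP z
    rw [lintegral_succ m _ hmF]
    have hm2 : Measurable (fun q : ℝ × (Fin m → ℝ) => ENNReal.ofReal (Real.exp
        (z ⬝ᵥ (Fin.cons q.1 q.2 : Fin (m + 1) → ℝ) -
          sf (Py Q) (Fin.cons q.1 q.2 : Fin (m + 1) → ℝ)))) :=
      hmF.comp (cn_cont m).measurable
    rw [lintegral_lintegral_swap hm2.aemeasurable]
    have e1 : ∀ v : Fin m → ℝ, ∫⁻ s : ℝ, ENNReal.ofReal (Real.exp
        (z ⬝ᵥ (Fin.cons s v : Fin (m + 1) → ℝ) - sf (Py Q) (Fin.cons s v : Fin (m + 1) → ℝ))) =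
        ENNReal.ofReal (1 / (τ * (1 - τ))) *
          ENNReal.ofReal (Real.exp ((1 - τ) * (ζ ⬝ᵥ v) - (1 - τ) * sf Q v)) := by
      intro v
      have e2 : ∀ s : ℝ, ENNReal.ofReal (Real.exp
          (z ⬝ᵥ (Fin.cons s v : Fin (m + 1) → ℝ) - sf (Py Q) (Fin.cons s v : Fin (m + 1) → ℝ))) =
          ENNReal.ofReal (Real.exp ((1 - τ) * (ζ ⬝ᵥ v))) *
            ENNReal.ofReal (Real.exp (τ * s - max s (sf Q v))) := by
        intro s
        have e3 : sf (Py Q) (Fin.cons s v : Fin (m + 1) → ℝ) = max s (sf Q v) := sf_Py hv hQ hne s v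
        have e4 : z ⬝ᵥ (Fin.cons s v : Fin (m + 1) → ℝ) = τ * s + (1 - τ) * (ζ ⬝ᵥ v) := by
          rw [hze]
          have := cn_dot τ s ζ0 v
          rw [hζζ, smul_dotProduct, smul_eq_mul, ← hζζ] at this
          exact this
        rw [e3, e4, ← ENNReal.ofReal_mul (Real.exp_pos _).le, ← Real.exp_add]
        congr 2
        ring
      simp_rw [e2]
      rw [lintegral_const_mul' _ _ ENNReal.ofReal_ne_top, inner_int h0 h1,
        ← ENNReal.ofReal_mul (Real.exp_pos _).le, ← ENNReal.ofReal_mul (by positivity)]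
      congr 1
      have e6 : Real.exp ((1 - τ) * (ζ ⬝ᵥ v) - (1 - τ) * sf Q v) =
          Real.exp ((1 - τ) * (ζ ⬝ᵥ v)) * Real.exp (-((1 - τ) * sf Q v)) := by
        rw [← Real.exp_add]
        congr 1
      rw [e6]
      ring
    simp_rw [e1]
    rw [lintegral_const_mul' _ _ ENNReal.ofReal_ne_top, dil_int hQ hne h1', ← mul_assoc,
      ← ENNReal.ofReal_mul (by positivity)]
    congr 2
    rw [pow_succ]
    field_simp
  unfold MI
  rw [hint, vol_Py hv hQ hne]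
  have hq := h ζ
  unfold MI at hq
  have e5 : ENNReal.ofReal (1 / ((m:ℝ) + 1)) * volume Q *
      (ENNReal.ofReal (1 / (τ * (1 - τ) ^ (m + 1))) *
        ∫⁻ v, ENNReal.ofReal (Real.exp (ζ ⬝ᵥ v - sf Q v))) =
      ENNReal.ofReal (1 / ((m:ℝ) + 1) * (1 / (τ * (1 - τ) ^ (m + 1)))) *
        (volume Q * ∫⁻ v, ENNReal.ofReal (Real.exp (ζ ⬝ᵥ v - sf Q v))) := by
    rw [ENNReal.ofReal_mul (by positivity)]
    ring
  rw [e5]
  refine le_trans ?_ (mul_le_mul_right hq _)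
  rw [← ENNReal.ofReal_mul (by positivity)]
  apply ENNReal.ofReal_le_ofReal
  have h2 := tau_max m h0 h1
  have h3 : 0 < τ * (1 - τ) ^ (m + 1) := by positivity
  rw [mul_comm]
  apply mul_le_mul_of_nonneg_right _ hc.le
  have h4 : 1 / (((m:ℝ) + 1) ^ (m + 1) / ((m:ℝ) + 2) ^ (m + 2)) ≤
      1 / (τ * (1 - τ) ^ (m + 1)) := one_div_le_one_div_of_le h3 h2
  calc ((m:ℝ) + 2) ^ (m + 2) / ((m:ℝ) + 1) ^ (m + 2)
      = 1 / ((m:ℝ) + 1) * (1 / (((m:ℝ) + 1) ^ (m + 1) / ((m:ℝ) + 2) ^ (m + 2))) := by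
        rw [pow_succ ((m:ℝ) + 1) (m + 1)]
        field_simp
    _ ≤ _ := by gcongr

end Pool.Agent.TH845.HP
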