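import Pool.Agent.TH845.HP.C2
import Pool.Agent.TH845.HP.A3

set_option autoImplicit false

/-!
General pyramids and the inductive step in coordinates (helper845).
-/

open MeasureTheory Set Filter
open scoped ENNReal Topology Matrix Pointwise

namespace Pool.Agent.TH845.HP

variable {m : ℕ}

/-- the linear automorphism `(r, x) ↦ (γ r, x + r a)` -/
noncomputable def Ψ (a : Fin m → ℝ) {γ : ℝ} (hγ : γ ≠ 0) :
    (Fin (m + 1) → ℝ) ≃ₗ[ℝ] (Fin (m + 1) → ℝ) where
  toFun z := cn (γ * z 0) ((fun i => z i.succ) + z 0 • a)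
  map_add' x y := by
    rw [cn_add]
    congr 1
    · simp only [Pi.add_apply]; ring
    · ext i; simp only [Pi.add_apply, Pi.smul_apply, smul_eq_mul]; ring
  map_smul' t x := by
    rw [RingHom.id_apply, cn_smul]
    congr 1
    · simp only [Pi.smul_apply, smul_eq_mul]; ring
    · ext i; simp only [Pi.add_apply, Pi.smul_apply, smul_eq_mul]; ring
  invFun z := cn (γ⁻¹ * z 0) ((fun i => z i.succ) - (γ⁻¹ * z 0) • a)
  left_inv z := by
    ext i
    refine Fin.cases ?_ (fun j => ?_) i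
    · simp only [cn_zero]; field_simp
    · simp only [cn_succ, cn_zero, Pi.sub_apply, Pi.add_apply, Pi.smul_apply, smul_eq_mul]
      field_simp
      ring
  right_inv z := by
    ext i
    refine Fin.cases ?_ (fun j => ?_) i
    · simp only [cn_zero]; field_simp
    · simp only [cn_succ, cn_zero, Pi.sub_apply, Pi.add_apply, Pi.smul_apply, smul_eq_mul]
      ring

lemma Ψ_cn (a : Fin m → ℝ) {γ : ℝ} (hγ : γ ≠ 0) (r : ℝ) (x : Fin m → ℝ) :
    Ψ a hγ (cn r x) = cn (γ * r) (x + r • a) := rfl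

lemma Ψ_J (a : Fin m → ℝ) {γ : ℝ} (hγ : γ ≠ 0) (B : Set (Fin m → ℝ)) :
    Ψ a hγ '' (J m '' B) = J m '' B := by
  rw [image_image]
  refine image_congr fun x _ => ?_
  rw [J_apply, Ψ_cn]
  simp

lemma Ψ_hull (a : Fin m → ℝ) {γ : ℝ} (hγ : γ ≠ 0) (S : Set (Fin (m + 1) → ℝ)) :
    Ψ a hγ '' convexHull ℝ S = convexHull ℝ (Ψ a hγ '' S) :=
  (Ψ a hγ).toLinearMap.image_convexHull S

lemma Ψ_Py {Q : Set (Fin m → ℝ)} (hv : Convex ℝ Q) (hne : Q.Nonempty) (a : Fin m → ℝ) {γ : ℝ}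
    (hγ : γ ≠ 0) : Ψ a hγ '' Py Q = KK Q a γ γ := by
  unfold Py
  rw [← KK_hull' hv hne 0 le_rfl, ← KK_hull' hv hne a le_rfl, Ψ_hull, image_insert_eq,
    image_insert_eq, Ψ_J, Ψ_cn]
  simp

lemma Ψ_refl {B : Set (Fin m → ℝ)} (hv : Convex ℝ B) (hne : B.Nonempty) (a : Fin m → ℝ) {α γ : ℝ}
    (h : α ≤ γ) : Ψ (0 : Fin m → ℝ) (show (-1:ℝ) ≠ 0 by norm_num) '' KK B a (-γ) (-α) =
      KK B a α γ := by
  rw [← KK_hull' hv hne a h, ← KK_hull' hv hne a (by linarith : -γ ≤ -α), Ψ_hull,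
    image_insert_eq, image_insert_eq, Ψ_J, Ψ_cn, Ψ_cn, insert_comm]
  simp

lemma int_pyr {Q : Set (Fin m → ℝ)} (hv : Convex ℝ Q) (hQ : IsCompact Q) (hne : Q.Nonempty)
    (a : Fin m → ℝ) {γ : ℝ} (hγ : γ ≠ 0) :
    (interior (KK Q a γ γ)).Nonempty ↔ (interior Q).Nonempty := by
  rw [← Ψ_Py hv hne a hγ, ← int_image, image_nonempty]
  constructor
  · intro h
    apply int_of_vol hv
    intro h0
    have := vol_of_int h
    rw [vol_Py hv hQ hne, h0, mul_zero] at this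
    exact this rfl
  · intro h
    apply int_of_vol (KK_conv hv 0 1 1)
    have h2 := vol_Py hv hQ hne
    unfold Py at h2
    rw [h2]
    refine mul_ne_zero ?_ (vol_of_int h)
    rw [ENNReal.ofReal_ne_zero_iff]
    positivity

/-- the ratio of the constants in consecutive dimensions -/
noncomputable def rho (m : ℕ) : ℝ := ((m:ℝ) + 2) ^ (m + 2) / ((m:ℝ) + 1) ^ (m + 2)

lemma rho_pos (m : ℕ) : 0 < rho m := by unfold rho; positivity

lemma LBI_pyr {Q : Set (Fin m → ℝ)} (hv : Convex ℝ Q) (hQ : IsCompact Q)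
    (hi : (interior Q).Nonempty) (a : Fin m → ℝ) {γ : ℝ} (hγ : γ ≠ 0) {c : ℝ} (hc : 0 < c)
    (h : LBI c Q) : LBI (c * rho m) (KK Q a γ γ) := by
  have hne : Q.Nonempty := hi.mono interior_subset
  rw [← Ψ_Py hv hne a hγ]
  exact LBI_image _ (Py_comp hv hQ hne) (LBI_Py hv hQ hi hc h)

lemma int_proj {K : Set (Fin (m + 1) → ℝ)} {Q : Set (Fin m → ℝ)} (hi : (interior K).Nonempty)
    (h : ∀ (r : ℝ) (x : Fin m → ℝ), cn r x ∈ K → x ∈ Q) : (interior Q).Nonempty := by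
  obtain ⟨z, hz⟩ := hi
  have hU : IsOpen {y : Fin m → ℝ | cn (z 0) y ∈ interior K} :=
    isOpen_interior.preimage (cn_cont2 (z 0))
  refine ⟨fun i => z i.succ, ?_⟩
  refine mem_interior.2 ⟨{y : Fin m → ℝ | cn (z 0) y ∈ interior K}, ?_, hU, ?_⟩
  · intro y hy
    exact h _ _ (interior_subset hy)
  · show cn (z 0) (fun i => z i.succ) ∈ interior K
    rw [cn_eta]; exact hz

lemma KK_tail {B : Set (Fin m → ℝ)} {a : Fin m → ℝ} {α γ : ℝ} (r : ℝ) (x : Fin m → ℝ)
    (h : cn r x ∈ KK B a α γ) : x ∈ convexHull ℝ (insert a B) := by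
  obtain ⟨w, h0, h1, -, -, y, hy, e⟩ := mem_KK.1 h
  rw [e]
  have hQ : Convex ℝ (convexHull ℝ (insert a B)) := convex_convexHull ℝ (insert a B)
  have hy' : y ∈ convexHull ℝ (insert a B) := subset_convexHull ℝ _ (mem_insert_of_mem a hy)
  have ha' : a ∈ convexHull ℝ (insert a B) := subset_convexHull ℝ _ (mem_insert a B)
  exact hQ hy' ha' (by linarith : 0 ≤ 1 - w) h0 (by ring)

/-- the inductive step in coordinates, `γ > 0` -/
theorem coord_pos {B : Set (Fin m → ℝ)} (hB : Convex ℝ B) (hne : B.Nonempty) (hc : IsCompact B)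
    {a : Fin m → ℝ} {α γ c : ℝ} (hαγ : α < γ) (hγ : 0 < γ) (hcc : 0 < c)
    (hi : (interior (KK B a α γ)).Nonempty) (hQ : LBI c (convexHull ℝ (insert a B)))
    (hB1 : 0 < α → (interior B).Nonempty ∧ LBI c B) : LBI (c * rho m) (KK B a α γ) := by
  set Q := convexHull ℝ (insert a B) with hQdef
  have hQv : Convex ℝ Q := convex_convexHull ℝ _
  have hQc : IsCompact Q := hull_insert_comp hne (by rw [hB.convexHull_eq]; exact hc) a
  have hQi : (interior Q).Nonempty := int_proj hi KK_tail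
  have hQne : Q.Nonempty := hQi.mono interior_subset
  have hr := rho_pos m
  have hcr : 0 < c * rho m := by positivity
  -- pyramids over `Q`
  have hP : ∀ δ : ℝ, 0 < δ → (interior (KK B a 0 δ)).Nonempty ∧ LBI (c * rho m) (KK B a 0 δ) := by
    intro δ hδ
    rw [KK_pyr hB hne a hδ.le]
    exact ⟨(int_pyr hQv hQc hQne a hδ.ne').2 hQi, LBI_pyr hQv hQc hQi a hδ.ne' hcc hQ⟩
  have hP' : ∀ δ : ℝ, δ < 0 → (interior (KK B a δ 0)).Nonempty ∧ LBI (c * rho m) (KK B a δ 0) := by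
    intro δ hδ
    rw [KK_pyr' hB hne a hδ.le]
    exact ⟨(int_pyr hQv hQc hQne a hδ.ne).2 hQi, LBI_pyr hQv hQc hQi a hδ.ne hcc hQ⟩
  rcases lt_trichotomy α 0 with h | h | h
  · exact type1 hB hne hc h hγ hcr hi (hP _ (by linarith)).1 (hP' _ (by linarith)).1
      (hP _ (by linarith)).2 (hP' _ (by linarith)).2
  · rw [h]; exact (hP γ hγ).2
  · obtain ⟨hBi, hBL⟩ := hB1 h
    exact type2 hB hne hc h hαγ hcr hi ((int_pyr hB hc hne a hγ.ne').2 hBi) (hP γ hγ).1
      (LBI_pyr hB hc hBi a hγ.ne' hcc hBL) (hP γ hγ).2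

/-- **the inductive step in coordinates** -/
theorem coord {B : Set (Fin m → ℝ)} (hB : Convex ℝ B) (hne : B.Nonempty) (hc : IsCompact B)
    {a : Fin m → ℝ} {α γ c : ℝ} (hαγ : α < γ) (hcc : 0 < c)
    (hi : (interior (KK B a α γ)).Nonempty) (hQ : LBI c (convexHull ℝ (insert a B)))
    (hB1 : (interior B).Nonempty ∧ LBI c B) : LBI (c * rho m) (KK B a α γ) := by
  rcases lt_or_ge 0 γ with hγ | hγ
  · exact coord_pos hB hne hc hαγ hγ hcc hi hQ fun _ => hB1
  · have hα : 0 < -α := by linarith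
    rw [← Ψ_refl hB hne a hαγ.le]
    refine LBI_image _ (KK_comp hB hne hc a (by linarith)) ?_
    refine coord_pos hB hne hc (by linarith) hα hcc ?_ hQ fun _ => hB1
    rw [← Ψ_refl hB hne a hαγ.le, ← int_image, image_nonempty] at hi
    exact hi

end Pool.Agent.TH845.HP
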