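import Pool.Agent.TH845.HP.C3

set_option autoImplicit false

/-!
Coordinates adapted to a hyperplane; the class of generating sets (helper845).
-/

open MeasureTheory Set Filter Module
open scoped ENNReal Topology Matrix Pointwise

namespace Pool.Agent.TH845.HP

variable {n m : ℕ}

/-- the tail as a linear map -/
noncomputable def tl (m : ℕ) : (Fin (m + 1) → ℝ) →ₗ[ℝ] (Fin m → ℝ) := LinearMap.funLeft ℝ ℝ Fin.succ

lemma tl_apply (z : Fin (m + 1) → ℝ) : tl m z = fun i => z i.succ := rfl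

@[simp] lemma tl_cn (r : ℝ) (x : Fin m → ℝ) : tl m (cn r x) = x := by
  ext i; simp [tl_apply]

lemma cn_tl (z : Fin (m + 1) → ℝ) : cn (z 0) (tl m z) = z := cn_eta z

/-- coordinates adapted to a hyperplane and a transversal direction -/
lemma exists_coord (f : (Fin (m + 1) → ℝ) →ₗ[ℝ] ℝ) {u : Fin (m + 1) → ℝ} (hu : f u = 1) :
    ∃ Φ : (Fin (m + 1) → ℝ) ≃ₗ[ℝ] (Fin (m + 1) → ℝ), (∀ s : ℝ, Φ (s • u) = cn s 0) ∧
      ∀ x, (Φ x) 0 = f x := by
  have hsurj : LinearMap.range f = ⊤ := by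
    rw [LinearMap.range_eq_top]
    intro r
    exact ⟨r • u, by rw [map_smul, hu, smul_eq_mul, mul_one]⟩
  have hker : finrank ℝ (LinearMap.ker f) = finrank ℝ (Fin m → ℝ) := by
    have h := LinearMap.finrank_range_add_finrank_ker f
    rw [hsurj, finrank_top, finrank_self, finrank_fin_fun] at h
    rw [finrank_fin_fun]
    omega
  let e : LinearMap.ker f ≃ₗ[ℝ] (Fin m → ℝ) := LinearEquiv.ofFinrankEq _ _ hker
  let Φ0 : (Fin (m + 1) → ℝ) →ₗ[ℝ] (Fin (m + 1) → ℝ) :=
    (LinearMap.proj (R := ℝ) (φ := fun _ : Fin (m + 1) => ℝ) 0).smulRight u +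
      (LinearMap.ker f).subtype ∘ₗ e.symm.toLinearMap ∘ₗ tl m
  have hΦ0 : ∀ z, Φ0 z = z 0 • u + ((e.symm (tl m z) : LinearMap.ker f) : Fin (m + 1) → ℝ) :=
    fun z => rfl
  have hf0 : ∀ z, f (Φ0 z) = z 0 := by
    intro z
    rw [hΦ0, map_add, map_smul, hu, smul_eq_mul, mul_one,
      LinearMap.mem_ker.1 (e.symm (tl m z)).2, add_zero]
  have hinj : Function.Injective Φ0 := by
    rw [← LinearMap.ker_eq_bot, LinearMap.ker_eq_bot']
    intro z hz
    have h0 : z 0 = 0 := by rw [← hf0 z, hz, map_zero]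
    rw [hΦ0, h0, zero_smul, zero_add] at hz
    have h1 : e.symm (tl m z) = 0 := Subtype.ext hz
    have h2 : tl m z = 0 := by simpa using h1
    rw [← cn_tl z, h0, h2]
    ext i; refine Fin.cases ?_ (fun j => ?_) i <;> simp
  let Φ1 := LinearEquiv.ofInjectiveEndo Φ0 hinj
  have hΦ1 : ∀ z, Φ1 z = Φ0 z := fun z => by
    rw [LinearEquiv.coe_ofInjectiveEndo]
  refine ⟨Φ1.symm, ?_, ?_⟩
  · intro s
    rw [LinearEquiv.symm_apply_eq, hΦ1, hΦ0, tl_cn, map_zero]
    simp
  · intro x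
    rw [← hf0 (Φ1.symm x), ← hΦ1, Φ1.apply_symm_apply]

/-- `X` is contained in a hyperplane -/
def Hyp (X : Set (Fin n → ℝ)) : Prop :=
  ∃ f : (Fin n → ℝ) →ₗ[ℝ] ℝ, f ≠ 0 ∧ ∀ x ∈ X, ∀ y ∈ X, f x = f y

lemma hyp_of_lt {X : Set (Fin n → ℝ)} (h : finrank ℝ (vectorSpan ℝ X) < n) : Hyp X := by
  have hlt : vectorSpan ℝ X < ⊤ := by
    rw [lt_top_iff_ne_top]
    intro h'
    rw [h', finrank_top, finrank_fin_fun] at h
    exact lt_irrefl _ h
  obtain ⟨f, hf, hle⟩ := Submodule.exists_le_ker_of_lt_top _ hlt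
  refine ⟨f, hf, fun x hx y hy => ?_⟩
  have := hle (vsub_mem_vectorSpan ℝ hx hy)
  rw [LinearMap.mem_ker, vsub_eq_sub, map_sub, sub_eq_zero] at this
  exact this

lemma hyp_of_int {X : Set (Fin n → ℝ)} (hne : X.Nonempty)
    (h : ¬ (interior (convexHull ℝ X)).Nonempty) : Hyp X := by
  rw [interior_convexHull_nonempty_iff_affineSpan_eq_top] at h
  apply hyp_of_lt
  by_contra hcon
  rw [not_lt] at hcon
  apply h
  have h1 : vectorSpan ℝ X = ⊤ := by
    apply Submodule.eq_top_of_finrank_eq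
    rw [finrank_fin_fun]
    refine le_antisymm ?_ hcon
    have := Submodule.finrank_le (vectorSpan ℝ X)
    rwa [finrank_fin_fun] at this
  rw [← AffineSubspace.direction_eq_top_iff_of_nonempty
    ((affineSpan_nonempty ℝ).2 hne), direction_affineSpan, h1]

lemma not_hyp_of_int {X : Set (Fin n → ℝ)} (h : (interior (convexHull ℝ X)).Nonempty) :
    ¬ Hyp X := by
  rintro ⟨f, hf, hconst⟩
  obtain ⟨z, hz⟩ := h
  have hne : X.Nonempty := by
    have : (convexHull ℝ X).Nonempty := ⟨z, interior_subset hz⟩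
    exact convexHull_nonempty_iff.1 this
  obtain ⟨p, hp⟩ := hne
  have hK : ∀ x ∈ convexHull ℝ X, f x = f p := by
    intro x hx
    have h1 : convexHull ℝ X ⊆ {x | f x = f p} := by
      refine convexHull_min (fun x hx => hconst x hx p hp) ?_
      intro x hx y hy s t _ _ hst
      simp only [mem_setOf_eq] at hx hy ⊢
      rw [map_add, map_smul, map_smul, hx, hy, smul_eq_mul, smul_eq_mul, ← add_mul, hst, one_mul]
    exact h1 hx
  apply hf
  ext v
  -- move from z in direction v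
  simp only [LinearMap.comp_apply, LinearMap.zero_apply]
  set w : Fin n → ℝ := LinearMap.single ℝ (fun _ => ℝ) v 1 with hw
  have hcont : Continuous fun ε : ℝ => z + ε • w := by fun_prop
  have hn : ∀ᶠ ε in 𝓝 (0:ℝ), z + ε • w ∈ interior (convexHull ℝ X) := by
    refine hcont.continuousAt.eventually ?_
    simp only [zero_smul, add_zero]
    exact isOpen_interior.mem_nhds hz
  obtain ⟨δ, hδ, hδ'⟩ := Metric.eventually_nhds_iff.1 hn
  have h1 := hK _ (interior_subset (hδ' (y := δ / 2) (by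
    rw [Real.dist_eq, sub_zero, abs_of_pos (by positivity)]; linarith)))
  have h2 := hK _ (interior_subset hz)
  rw [map_add, map_smul, h2, smul_eq_mul] at h1
  have h3 : δ / 2 * f w = 0 := by linarith
  rcases mul_eq_zero.1 h3 with h | h
  · linarith
  · exact h

/-- generating sets: a compact convex set of dimension at most `d` and at most `k` points -/
def Cls (d n k : ℕ) (S : Set (Fin n → ℝ)) : Prop :=
  ∃ (A : Set (Fin n → ℝ)) (L : List (Fin n → ℝ)), IsCompact A ∧ Convex ℝ A ∧ A.Nonempty ∧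
    finrank ℝ (vectorSpan ℝ A) ≤ d ∧ L.length ≤ k ∧ S = A ∪ {x | x ∈ L}

lemma Cls.mono {d n k k' : ℕ} {S : Set (Fin n → ℝ)} (h : Cls d n k S) (hk : k ≤ k') :
    Cls d n k' S := by
  obtain ⟨A, L, h1, h2, h3, h4, h5, h6⟩ := h
  exact ⟨A, L, h1, h2, h3, h4, h5.trans hk, h6⟩

lemma list_cons_set (w : Fin n → ℝ) (L : List (Fin n → ℝ)) :
    {x | x ∈ w :: L} = insert w {x | x ∈ L} := by
  ext x; simp

lemma Cls.insert {d n k : ℕ} {S : Set (Fin n → ℝ)} (h : Cls d n k S) (w : Fin n → ℝ) :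
    Cls d n (k + 1) (insert w S) := by
  obtain ⟨A, L, h1, h2, h3, h4, h5, h6⟩ := h
  refine ⟨A, w :: L, h1, h2, h3, h4, by simpa using h5, ?_⟩
  rw [list_cons_set, union_insert, h6]

lemma Cls.decomp {d n k : ℕ} {S : Set (Fin n → ℝ)} (h : Cls d n (k + 1) S) :
    ∃ (w : Fin n → ℝ) (S' : Set (Fin n → ℝ)), S = Insert.insert w S' ∧ Cls d n k S' := by
  obtain ⟨A, L, h1, h2, h3, h4, h5, h6⟩ := h
  cases L with
  | nil =>
    obtain ⟨p, hp⟩ := h3
    refine ⟨p, A, ?_, A, [], h1, h2, ⟨p, hp⟩, h4, by simp, by simp⟩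
    rw [insert_eq_of_mem hp, h6]
    simp
  | cons w L =>
    refine ⟨w, A ∪ {x | x ∈ L}, ?_, A, L, h1, h2, h3, h4, by simpa using h5, rfl⟩
    rw [h6, list_cons_set, union_insert]

lemma Cls.nonempty {d n k : ℕ} {S : Set (Fin n → ℝ)} (h : Cls d n k S) : S.Nonempty := by
  obtain ⟨A, L, h1, h2, h3, h4, h5, h6⟩ := h
  rw [h6]; exact h3.inl

lemma Cls.compact {d n : ℕ} : ∀ {k : ℕ} {S : Set (Fin n → ℝ)}, Cls d n k S →
    IsCompact (convexHull ℝ S) := by
  intro k
  induction k with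
  | zero =>
    rintro S ⟨A, L, h1, h2, h3, h4, h5, h6⟩
    have : L = [] := List.length_eq_zero_iff.1 (Nat.le_zero.1 h5)
    subst this
    have h7 : S = A := by rw [h6]; simp
    rw [h7, h2.convexHull_eq]
    exact h1
  | succ k ih =>
    intro S h
    obtain ⟨w, S', rfl, h'⟩ := h.decomp
    exact hull_insert_comp h'.nonempty (ih h') w

lemma Cls.finrank {d n : ℕ} : ∀ {k : ℕ} {S : Set (Fin n → ℝ)}, Cls d n k S →
    finrank ℝ (vectorSpan ℝ S) ≤ d + k := by
  intro k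
  induction k with
  | zero =>
    rintro S ⟨A, L, h1, h2, h3, h4, h5, h6⟩
    have : L = [] := List.length_eq_zero_iff.1 (Nat.le_zero.1 h5)
    subst this
    have h7 : S = A := by rw [h6]; simp
    rw [h7]
    exact h4
  | succ k ih =>
    intro S h
    obtain ⟨w, S', rfl, h'⟩ := h.decomp
    have h1 := finrank_vectorSpan_insert_le_set ℝ S' w
    have h2 := ih h'
    omega

lemma Cls.image {d n n' k : ℕ} {S : Set (Fin n → ℝ)} (h : Cls d n k S)
    (g : (Fin n → ℝ) →ᵃ[ℝ] (Fin n' → ℝ)) : Cls d n' k (g '' S) := by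
  obtain ⟨A, L, h1, h2, h3, h4, h5, h6⟩ := h
  refine ⟨g '' A, L.map g, h1.image g.continuous_of_finiteDimensional, h2.affine_image g,
    h3.image g, ?_, by simpa using h5, ?_⟩
  · rw [← AffineMap.map_vectorSpan]
    exact (Submodule.finrank_map_le _ _).trans h4
  · rw [h6, image_union]
    congr 1
    ext x
    simp

end Pool.Agent.TH845.HP
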