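import Pool.Agent.TH845.HP.D2

set_option autoImplicit false

/-!
The inductive step (helper845).
-/

open MeasureTheory Set Filter Module
open scoped ENNReal Topology Matrix Pointwise

namespace Pool.Agent.TH845.HP

variable {n m : ℕ}

/-- the conjectured minimum -/
noncomputable def cst (n : ℕ) : ℝ := ((n:ℝ) + 1) ^ (n + 1) / n.factorial

lemma cst_pos (n : ℕ) : 0 < cst n := by unfold cst; positivity

lemma cst_succ (m : ℕ) : cst m * rho m = cst (m + 1) := by
  unfold cst rho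
  rw [Nat.factorial_succ]
  push_cast
  have h1 : ((m:ℝ) + 1 + 1) = (m:ℝ) + 2 := by ring
  rw [h1, pow_succ ((m:ℝ) + 1) (m + 1)]
  field_simp

/-- the affine map `x ↦ Φ (x - p)` -/
noncomputable def aff (Φ : (Fin n → ℝ) ≃ₗ[ℝ] (Fin n → ℝ)) (p : Fin n → ℝ) :
    (Fin n → ℝ) →ᵃ[ℝ] (Fin n → ℝ) :=
  Φ.toLinearMap.toAffineMap - AffineMap.const ℝ _ (Φ p)

lemma aff_apply (Φ : (Fin n → ℝ) ≃ₗ[ℝ] (Fin n → ℝ)) (p x : Fin n → ℝ) :
    aff Φ p x = Φ (x - p) := by
  rw [map_sub]; rfl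

lemma LBI_aff' (Φ : (Fin n → ℝ) ≃ₗ[ℝ] (Fin n → ℝ)) (p : Fin n → ℝ) {K : Set (Fin n → ℝ)}
    (hK : IsCompact K) (hne : K.Nonempty) {c : ℝ} (h : LBI c (aff Φ p '' K)) : LBI c K := by
  apply LBI_aff Φ p hK hne
  have : (fun x => Φ (x - p)) '' K = aff Φ p '' K :=
    image_congr fun x _ => (aff_apply Φ p x).symm
  rw [this]
  exact h

lemma int_aff' (Φ : (Fin n → ℝ) ≃ₗ[ℝ] (Fin n → ℝ)) (p : Fin n → ℝ) {K : Set (Fin n → ℝ)}
    (h : (interior K).Nonempty) : (interior (aff Φ p '' K)).Nonempty := by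
  have h1 : (fun x => Φ (x - p)) '' K = aff Φ p '' K :=
    image_congr fun x _ => (aff_apply Φ p x).symm
  rw [← h1, ← int_aff]
  exact h.image _

/-- the hypothesis of the induction -/
def IHyp (c : ℝ) (d m k : ℕ) : Prop := ∀ S : Set (Fin m → ℝ), Cls d m (k + 1) S →
  (interior (convexHull ℝ S)).Nonempty → LBI (c * cst m) (convexHull ℝ S)

/-- the affine map to the hyperplane -/
noncomputable def tT (Φ : (Fin (m + 1) → ℝ) ≃ₗ[ℝ] (Fin (m + 1) → ℝ)) (p : Fin (m + 1) → ℝ) :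
    (Fin (m + 1) → ℝ) →ᵃ[ℝ] (Fin m → ℝ) := (tl m).toAffineMap.comp (aff Φ p)

lemma tT_apply (Φ : (Fin (m + 1) → ℝ) ≃ₗ[ℝ] (Fin (m + 1) → ℝ)) (p x : Fin (m + 1) → ℝ) :
    tT Φ p x = tl m (Φ (x - p)) := by
  unfold tT
  rw [AffineMap.comp_apply, aff_apply]
  rfl

lemma aff_eq_cn {f : (Fin (m + 1) → ℝ) →ₗ[ℝ] ℝ}
    {Φ : (Fin (m + 1) → ℝ) ≃ₗ[ℝ] (Fin (m + 1) → ℝ)} (hΦ : ∀ x, (Φ x) 0 = f x)
    (p x : Fin (m + 1) → ℝ) : aff Φ p x = cn (f x - f p) (tT Φ p x) := by
  rw [aff_apply, tT_apply, ← map_sub, ← hΦ, cn_tl]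

lemma aff_image {f : (Fin (m + 1) → ℝ) →ₗ[ℝ] ℝ}
    {Φ : (Fin (m + 1) → ℝ) ≃ₗ[ℝ] (Fin (m + 1) → ℝ)} (hΦ : ∀ x, (Φ x) 0 = f x)
    {p : Fin (m + 1) → ℝ} {S : Set (Fin (m + 1) → ℝ)} (hS : ∀ x ∈ S, f x = f p) :
    aff Φ p '' S = J m '' (tT Φ p '' S) := by
  rw [image_image]
  refine image_congr fun x hx => ?_
  rw [aff_eq_cn hΦ, hS x hx, sub_self, J_apply]

/-- **pyramids** -/
theorem pyr_step {c : ℝ} (hc : 0 < c) {d k : ℕ} (IH : IHyp c d m k) {S : Set (Fin (m + 1) → ℝ)}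
    (hS : Cls d (m + 1) (k + 1) S) (hyp : Hyp S) (w : Fin (m + 1) → ℝ)
    (hi : (interior (convexHull ℝ (insert w S))).Nonempty) :
    LBI (c * cst (m + 1)) (convexHull ℝ (insert w S)) := by
  obtain ⟨f, hf, hconst⟩ := hyp
  obtain ⟨p, hp⟩ := hS.nonempty
  have hSp : ∀ x ∈ S, f x = f p := fun x hx => hconst x hx p hp
  have hγ : f w - f p ≠ 0 := by
    intro h0
    have hw : f w = f p := by linarith
    apply not_hyp_of_int hi
    have hall : ∀ x ∈ insert w S, f x = f p := by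
      rintro x (rfl | hx)
      · exact hw
      · exact hSp x hx
    exact ⟨f, hf, fun x hx y hy => by rw [hall x hx, hall y hy]⟩
  set γ := f w - f p with hγdef
  set u : Fin (m + 1) → ℝ := γ⁻¹ • (w - p) with hu
  have hfu : f u = 1 := by
    rw [hu, map_smul, map_sub, smul_eq_mul, inv_mul_cancel₀ hγ]
  obtain ⟨Φ, hΦu, hΦ0⟩ := exists_coord f hfu
  have hne : (insert w S).Nonempty := insert_nonempty w S
  have hcomp : IsCompact (convexHull ℝ (insert w S)) := (hS.insert w).compact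
  set G := tT Φ p '' S with hG
  have hGC : Cls d m (k + 1) G := hS.image _
  have himg : aff Φ p '' convexHull ℝ (insert w S) = KK (convexHull ℝ G) (tT Φ p w) γ γ := by
    rw [AffineMap.image_convexHull, image_insert_eq, aff_image hΦ0 hSp, aff_eq_cn hΦ0, ← hγdef,
      ← KK_hull hGC.nonempty _ le_rfl, insert_idem]
  apply LBI_aff' Φ p hcomp hne.convexHull
  have hi' := int_aff' Φ p hi
  rw [himg] at hi' ⊢
  have hGi : (interior (convexHull ℝ G)).Nonempty :=
    (int_pyr (convex_convexHull ℝ G) hGC.compact hGC.nonempty.convexHull _ hγ).1 hi'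
  rw [← cst_succ, ← mul_assoc]
  exact LBI_pyr (convex_convexHull ℝ G) hGC.compact hGi _ hγ (mul_pos hc (cst_pos m))
    (IH G hGC hGi)

/-- **two points outside a hyperplane** -/
theorem two_step {c : ℝ} (hc : 0 < c) {d k : ℕ} (IH : IHyp c d m k) {S : Set (Fin (m + 1) → ℝ)}
    (hS : Cls d (m + 1) k S) {f : (Fin (m + 1) → ℝ) →ₗ[ℝ] ℝ}
    (hf : ∀ x ∈ S, ∀ y ∈ S, f x = f y) {w1 w2 : Fin (m + 1) → ℝ} (hlt : f w1 < f w2)
    (hN : ¬ Hyp (insert w1 S))
    (hi : (interior (convexHull ℝ (insert w1 (insert w2 S)))).Nonempty) :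
    LBI (c * cst (m + 1)) (convexHull ℝ (insert w1 (insert w2 S))) := by
  obtain ⟨p, hp⟩ := hS.nonempty
  have hSp : ∀ x ∈ S, f x = f p := fun x hx => hf x hx p hp
  have hf0 : f ≠ 0 := by
    intro h; rw [h] at hlt; simp at hlt
  set α := f w1 - f p with hα
  set γ := f w2 - f p with hγ
  have hαγ : α < γ := by rw [hα, hγ]; linarith
  have hα0 : α ≠ 0 := by
    intro h0
    have hw : f w1 = f p := by linarith
    apply hN
    have hall : ∀ x ∈ insert w1 S, f x = f p := by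
      rintro x (rfl | hx)
      · exact hw
      · exact hSp x hx
    exact ⟨f, hf0, fun x hx y hy => by rw [hall x hx, hall y hy]⟩
  have hd : γ - α ≠ 0 := by linarith
  set u : Fin (m + 1) → ℝ := (γ - α)⁻¹ • (w2 - w1) with hu
  have hfu : f u = 1 := by
    rw [hu, map_smul, map_sub, smul_eq_mul]
    have : f w2 - f w1 = γ - α := by rw [hα, hγ]; ring
    rw [this, inv_mul_cancel₀ hd]
  obtain ⟨Φ, hΦu, hΦ0⟩ := exists_coord f hfu
  set a := tT Φ p w1 with ha
  have ha2 : tT Φ p w2 = a := by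
    rw [ha, tT_apply, tT_apply]
    have h1 : w2 - p = (w1 - p) + (γ - α) • u := by
      rw [hu, smul_smul, mul_inv_cancel₀ hd, one_smul]; abel
    rw [h1, map_add, hΦu, map_add, tl_cn, add_zero]
  set G := tT Φ p '' S with hG
  have hGC : Cls d m k G := hS.image _
  have hGC1 : Cls d m (k + 1) G := hGC.mono (Nat.le_succ k)
  have himg : aff Φ p '' convexHull ℝ (insert w1 (insert w2 S)) = KK (convexHull ℝ G) a α γ := by
    rw [AffineMap.image_convexHull, image_insert_eq, image_insert_eq, aff_image hΦ0 hSp,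
      aff_eq_cn hΦ0, aff_eq_cn hΦ0, ← hα, ← hγ, ha2, ← ha, KK_hull hGC.nonempty a hαγ.le]
  have hcomp : IsCompact (convexHull ℝ (insert w1 (insert w2 S))) :=
    ((hS.insert w2).insert w1).compact
  apply LBI_aff' Φ p hcomp (insert_nonempty _ _).convexHull
  have hi' := int_aff' Φ p hi
  rw [himg] at hi' ⊢
  -- the section is full-dimensional
  have hGi : (interior (convexHull ℝ G)).Nonempty := by
    by_contra hcon
    obtain ⟨g, hg, hgc⟩ := hyp_of_int hGC.nonempty hcon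
    apply hN
    have hp0 : tT Φ p p = 0 := by rw [tT_apply, sub_self, map_zero, map_zero]
    have hg0 : ∀ x ∈ S, g (tl m (Φ (x - p))) = 0 := by
      intro x hx
      have h1 := hgc (tT Φ p x) ⟨x, hx, rfl⟩ (tT Φ p p) ⟨p, hp, rfl⟩
      rw [hp0, map_zero, tT_apply] at h1
      exact h1
    let F' : (Fin (m + 1) → ℝ) →ₗ[ℝ] ℝ := g ∘ₗ tl m ∘ₗ Φ.toLinearMap - (g a / α) • f
    have hF' : ∀ x, F' x = g (tl m (Φ x)) - g a / α * f x := fun x => rfl
    have hFp : ∀ x ∈ insert w1 S, F' x = F' p := by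
      have hsub : ∀ x, F' x - F' p = F' (x - p) := fun x => (map_sub F' x p).symm
      rintro x (rfl | hx)
      · have h1 := hsub x
        rw [hF' (x - p), ← tT_apply, ← ha, map_sub, ← hα, div_mul_cancel₀ _ hα0, sub_self] at h1
        linarith
      · have h1 := hsub x
        rw [hF' (x - p), hg0 x hx, map_sub, hSp x hx, sub_self, mul_zero, sub_zero] at h1
        linarith
    refine ⟨F', ?_, fun x hx y hy => by rw [hFp x hx, hFp y hy]⟩
    intro h0
    apply hg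
    apply LinearMap.ext
    intro v
    have h1 : F' (Φ.symm (cn 0 v)) = 0 := by rw [h0]; rfl
    rw [hF', Φ.apply_symm_apply, tl_cn, ← hΦ0, Φ.apply_symm_apply, cn_zero, mul_zero,
      sub_zero] at h1
    rw [h1]
    rfl
  -- the base of the pyramids
  have hQeq : convexHull ℝ (insert a (convexHull ℝ G)) = convexHull ℝ (insert a G) := by
    rw [insert_eq, insert_eq, convexHull_convexHull_union_right]
  have hQC : Cls d m (k + 1) (insert a G) := hGC.insert a
  have hQi : (interior (convexHull ℝ (insert a G))).Nonempty := by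
    rw [← hQeq]
    exact int_proj hi' KK_tail
  rw [← cst_succ, ← mul_assoc]
  refine coord (convex_convexHull ℝ G) hGC.nonempty.convexHull hGC.compact hαγ
    (mul_pos hc (cst_pos m)) hi' ?_
    ⟨hGi, IH G hGC1 hGi⟩
  rw [hQeq]
  exact IH _ hQC hQi

end Pool.Agent.TH845.HP
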