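import Pool.Agent.TH845.HP.D3

set_option autoImplicit false

/-!
The theorem on hulls of a convex set of dimension at most `d` and `n - d + 1` points (helper845).
-/

open MeasureTheory Set Filter Module
open scoped ENNReal Topology Matrix Pointwise

namespace Pool.Agent.TH845.HP

variable {n m : ℕ}

/-- outer approximation by dilated copies -/
lemma LBI_approx {K : Set (Fin n → ℝ)} (hne : K.Nonempty) {p : Fin n → ℝ}
    {c : ℝ} (h : ∀ ε : ℝ, 0 < ε → ∃ K' : Set (Fin n → ℝ), IsCompact K' ∧ K ⊆ K' ∧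
      K' ⊆ AffineMap.homothety p (1 + ε) '' K ∧ LBI c K') : LBI c K := by
  intro z
  have h1 : ∀ ε : ℝ, 0 < ε → ENNReal.ofReal c ≤ ENNReal.ofReal ((1 + ε) ^ n) * MI K z := by
    intro ε hε
    obtain ⟨K', hK', hsub, hsub', hL⟩ := h ε hε
    refine (hL z).trans ?_
    unfold MI
    have hvol : volume K' ≤ ENNReal.ofReal ((1 + ε) ^ n) * volume K := by
      refine (measure_mono hsub').trans ?_
      rw [Measure.addHaar_image_homothety, finrank_fin_fun, abs_of_pos (by positivity)]
    have hint : ∫⁻ y, ENNReal.ofReal (Real.exp (z ⬝ᵥ y - sf K' y)) ≤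
        ∫⁻ y, ENNReal.ofReal (Real.exp (z ⬝ᵥ y - sf K y)) := by
      refine lintegral_mono fun y => ?_
      apply ENNReal.ofReal_le_ofReal
      apply Real.exp_le_exp.2
      have : sf K y ≤ sf K' y := sf_le hne fun x hx => le_sf hK' (hsub hx) y
      linarith
    calc volume K' * ∫⁻ y, ENNReal.ofReal (Real.exp (z ⬝ᵥ y - sf K' y))
        ≤ (ENNReal.ofReal ((1 + ε) ^ n) * volume K) *
          ∫⁻ y, ENNReal.ofReal (Real.exp (z ⬝ᵥ y - sf K y)) := by gcongr
      _ = _ := by ring
  rcases eq_or_ne (MI K z) ⊤ with htop | htop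
  · rw [htop]; exact le_top
  rw [← ENNReal.ofReal_toReal htop]
  apply ENNReal.ofReal_le_ofReal
  have h2 : ∀ ε : ℝ, 0 < ε → c ≤ (1 + ε) ^ n * (MI K z).toReal := by
    intro ε hε
    have h3 := h1 ε hε
    rw [← ENNReal.ofReal_toReal htop, ← ENNReal.ofReal_mul (by positivity)] at h3
    exact (ENNReal.ofReal_le_ofReal_iff (by positivity)).1 h3
  have hlim : Tendsto (fun ε : ℝ => (1 + ε) ^ n * (MI K z).toReal) (𝓝[>] 0)
      (𝓝 ((1 + 0) ^ n * (MI K z).toReal)) := by
    have hc : Continuous fun ε : ℝ => (1 + ε) ^ n * (MI K z).toReal := by fun_prop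
    exact (hc.tendsto 0).mono_left nhdsWithin_le_nhds
  have h4 := ge_of_tendsto hlim (eventually_nhdsWithin_of_forall fun ε hε => h2 ε hε)
  simpa using h4

/-- **the step, general position of two points** -/
theorem two_step' {c : ℝ} (hc : 0 < c) {d k : ℕ} (IH : IHyp c d m k)
    {S : Set (Fin (m + 1) → ℝ)}
    (hS : Cls d (m + 1) k S) {f : (Fin (m + 1) → ℝ) →ₗ[ℝ] ℝ}
    (hf : ∀ x ∈ S, ∀ y ∈ S, f x = f y) {w1 w2 : Fin (m + 1) → ℝ} (hne : f w1 ≠ f w2)
    (hN1 : ¬ Hyp (insert w1 S)) (hN2 : ¬ Hyp (insert w2 S))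
    (hi : (interior (convexHull ℝ (insert w1 (insert w2 S)))).Nonempty) :
    LBI (c * cst (m + 1)) (convexHull ℝ (insert w1 (insert w2 S))) := by
  rcases lt_or_gt_of_ne hne with h | h
  · exact two_step hc IH hS hf h hN1 hi
  · rw [insert_comm] at hi ⊢
    exact two_step hc IH hS hf h hN2 hi

/-- **the inductive step** -/
theorem step {c : ℝ} (hc : 0 < c) {d k : ℕ} (hm : d + k ≤ m) (IH : IHyp c d m k)
    {S : Set (Fin (m + 1) → ℝ)}
    (hS : Cls d (m + 1) (k + 2) S) (hi : (interior (convexHull ℝ S)).Nonempty) :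
    LBI (c * cst (m + 1)) (convexHull ℝ S) := by
  obtain ⟨w1, S1, rfl, hS1⟩ := hS.decomp
  obtain ⟨w2, S0, rfl, hS0⟩ := hS1.decomp
  by_cases hP1 : Hyp (insert w2 S0)
  · exact pyr_step hc IH hS1 hP1 w1 hi
  by_cases hP2 : Hyp (insert w1 S0)
  · rw [insert_comm] at hi ⊢
    exact pyr_step hc IH (hS0.insert w1) hP2 w2 hi
  -- the hyperplane
  have hlt : finrank ℝ (vectorSpan ℝ S0) < m + 1 := by
    have := hS0.finrank
    omega
  obtain ⟨f, hf0, hf⟩ := hyp_of_lt hlt
  by_cases hne : f w1 = f w2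
  swap
  · exact two_step' hc IH hS0 hf hne hP2 hP1 hi
  -- parallel case
  obtain ⟨p, hp⟩ := hS0.nonempty
  have hw1 : f w1 ≠ f p := by
    intro h0
    apply hP2
    have hall : ∀ x ∈ insert w1 S0, f x = f p := by
      rintro x (rfl | hx)
      · exact h0
      · exact hf x hx p hp
    exact ⟨f, hf0, fun x hx y hy => by rw [hall x hx, hall y hy]⟩
  set K := convexHull ℝ (insert w1 (insert w2 S0)) with hK
  have hKc : IsCompact K := hS.compact
  have hKne : K.Nonempty := (insert_nonempty _ _).convexHull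
  have hKv : Convex ℝ K := convex_convexHull ℝ _
  have hpK : p ∈ K := subset_convexHull ℝ _ (Or.inr (Or.inr hp))
  have hw1K : w1 ∈ K := subset_convexHull ℝ _ (Or.inl rfl)
  refine LBI_approx hKne (p := p) fun ε hε => ?_
  have hhom : ∀ x, AffineMap.homothety p (1 + ε) x = p + (1 + ε) • (x - p) := by
    intro x
    rw [AffineMap.homothety_apply, vsub_eq_sub, vadd_eq_add]
    exact add_comm _ _
  set w' := p + (1 + ε) • (w1 - p) with hw'
  have h1ε : (0:ℝ) < 1 + ε := by linarith
  -- `K` is contained in its dilation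
  have hKsub : K ⊆ AffineMap.homothety p (1 + ε) '' K := by
    intro x hx
    refine ⟨p + (1 + ε)⁻¹ • (x - p), ?_, ?_⟩
    · have h1 := hKv hpK hx (a := 1 - (1 + ε)⁻¹) (b := (1 + ε)⁻¹) (by
        have : (1 + ε)⁻¹ ≤ 1 := inv_le_one_of_one_le₀ (by linarith)
        linarith) (by positivity) (by ring)
      have h2 : (1 - (1 + ε)⁻¹) • p + (1 + ε)⁻¹ • x = p + (1 + ε)⁻¹ • (x - p) := by module
      rw [h2] at h1
      exact h1
    · rw [hhom, add_sub_cancel_left, smul_smul, mul_inv_cancel₀ h1ε.ne', one_smul,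
        add_sub_cancel]
  have hHv : Convex ℝ (AffineMap.homothety p (1 + ε) '' K) := hKv.affine_image _
  -- `w1` is in the new hull
  have hw1' : w1 ∈ convexHull ℝ (insert w' (insert w2 S0)) := by
    have hpm : p ∈ convexHull ℝ (insert w' (insert w2 S0)) :=
      subset_convexHull ℝ _ (Or.inr (Or.inr hp))
    have hwm : w' ∈ convexHull ℝ (insert w' (insert w2 S0)) := subset_convexHull ℝ _ (Or.inl rfl)
    have hcv : Convex ℝ (convexHull ℝ (insert w' (insert w2 S0))) := convex_convexHull ℝ _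
    have h1 := hcv hpm hwm (a := 1 - (1 + ε)⁻¹) (b := (1 + ε)⁻¹) (by
        have : (1 + ε)⁻¹ ≤ 1 := inv_le_one_of_one_le₀ (by linarith)
        linarith) (by positivity) (by ring)
    have h2 : (1 - (1 + ε)⁻¹) • p + (1 + ε)⁻¹ • w' = w1 := by
      have e1 : (1 - (1 + ε)⁻¹) • p + (1 + ε)⁻¹ • w' =
          p + ((1 + ε)⁻¹ * (1 + ε)) • (w1 - p) := by rw [hw']; module
      rw [e1, inv_mul_cancel₀ h1ε.ne', one_smul, add_sub_cancel]
    rw [h2] at h1
    exact h1
  have hsub1 : K ⊆ convexHull ℝ (insert w' (insert w2 S0)) := by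
    refine convexHull_min ?_ (convex_convexHull ℝ _)
    rintro x (rfl | hx)
    · exact hw1'
    · exact subset_convexHull ℝ _ (Or.inr hx)
  refine ⟨convexHull ℝ (insert w' (insert w2 S0)), (hS1.insert w').compact, hsub1, ?_, ?_⟩
  · refine convexHull_min ?_ hHv
    rintro x (rfl | hx)
    · exact ⟨w1, hw1K, by rw [hhom]⟩
    · exact hKsub (subset_convexHull ℝ _ (Or.inr hx))
  · refine two_step' hc IH hS0 hf ?_ ?_ hP1 (hi.mono (interior_mono hsub1))
    · rw [hw', map_add, map_smul, map_sub, smul_eq_mul, ← hne]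
      intro h0
      have h1 : ε * (f w1 - f p) = 0 := by linarith
      rcases mul_eq_zero.1 h1 with h2 | h2
      · linarith
      · exact hw1 (by linarith)
    · rintro ⟨g, hg, hgc⟩
      apply hP2
      have h1 := hgc w' (Or.inl rfl) p (Or.inr hp)
      rw [hw', map_add, map_smul, map_sub, smul_eq_mul] at h1
      have h2 : (1 + ε) * (g w1 - g p) = 0 := by linarith
      have h3 : g w1 = g p := by
        rcases mul_eq_zero.1 h2 with h | h
        · linarith
        · linarith
      have hall : ∀ x ∈ insert w1 S0, g x = g p := by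
        rintro x (rfl | hx)
        · exact h3
        · exact hgc x (Or.inr hx) p (Or.inr hp)
      exact ⟨g, hg, fun x hx y hy => by rw [hall x hx, hall y hy]⟩

/-- **from dimension `d` to all dimensions** -/
theorem main {c : ℝ} (hc : 0 < c) (d : ℕ) (hd : ∀ K : Set (Fin d → ℝ), IsCompact K → Convex ℝ K →
    (interior K).Nonempty → LBI (c * cst d) K) : ∀ k : ℕ, IHyp c d (d + k) k := by
  intro k
  induction k with
  | zero =>
    intro S hS hi
    exact hd _ hS.compact (convex_convexHull ℝ S) hi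
  | succ k ih =>
    intro S hS hi
    exact step hc le_rfl ih hS hi

/-- hulls of a compact convex set of dimension at most `d` and at most `n - d + 1` points -/
theorem hulls {c : ℝ} (hc : 0 < c) {n d : ℕ} (hn : d ≤ n) (hd : ∀ K : Set (Fin d → ℝ),
    IsCompact K → Convex ℝ K → (interior K).Nonempty → LBI (c * cst d) K)
    (A : Set (Fin n → ℝ)) (hA : IsCompact A) (hv : Convex ℝ A)
    (hdim : finrank ℝ (vectorSpan ℝ A) ≤ d) (W : Finset (Fin n → ℝ))
    (hW : W.card + d ≤ n + 1)
    (hi : (interior (convexHull ℝ (A ∪ (W : Set (Fin n → ℝ))))).Nonempty) :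
    LBI (c * cst n) (convexHull ℝ (A ∪ (W : Set (Fin n → ℝ)))) := by
  obtain ⟨k, rfl⟩ := Nat.exists_eq_add_of_le hn
  rcases A.eq_empty_or_nonempty with h | h
  · subst h
    rw [empty_union] at hi ⊢
    have hWne : (W : Set (Fin (d + k) → ℝ)).Nonempty := by
      obtain ⟨x, hx⟩ := hi
      exact convexHull_nonempty_iff.1 ⟨x, interior_subset hx⟩
    obtain ⟨w, hw⟩ := hWne
    have e : (W : Set (Fin (d + k) → ℝ)) = {w} ∪ {x | x ∈ W.toList} := by
      ext x
      constructor
      · intro hx; exact Or.inr (by simpa using hx)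
      · rintro (hx | hx)
        · rw [mem_singleton_iff] at hx; rw [hx]; exact hw
        · simpa using hx
    refine main hc d hd k _ ⟨{w}, W.toList, isCompact_singleton, convex_singleton w,
      singleton_nonempty w, ?_, ?_, e⟩ hi
    · rw [vectorSpan_singleton, finrank_bot]; exact Nat.zero_le d
    · rw [Finset.length_toList]; omega
  · refine main hc d hd k _ ⟨A, W.toList, hA, hv, h, hdim, ?_, ?_⟩ hi
    · rw [Finset.length_toList]; omega
    · congr 1
      ext x
      simp

end Pool.Agent.TH845.HP
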