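import Pool.Agent.TH845.HP.D4
import Pool.Agent.TH808.Base

set_option autoImplicit false

/-!
Polars of hulls, and the known inequalities in small dimensions (helper845).
-/

open MeasureTheory Set Filter Module
open scoped ENNReal Topology Matrix Pointwise

namespace Pool.Agent.TH845.HP

variable {n m : ℕ}

lemma MI_eq_MZ (K : Set (Fin n → ℝ)) (z : Fin n → ℝ) : MI K z = Pool.Agent.TH808.MZ K z := rfl

/-- the polar body with respect to the origin -/
def po (K : Set (Fin n → ℝ)) : Set (Fin n → ℝ) := {y | ∀ x ∈ K, x ⬝ᵥ y ≤ 1}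

lemma po_conv (K : Set (Fin n → ℝ)) : Convex ℝ (po K) := by
  intro y hy z hz a b ha hb hab x hx
  rw [dotProduct_add, dotProduct_smul, dotProduct_smul, smul_eq_mul, smul_eq_mul]
  nlinarith [mul_le_mul_of_nonneg_left (hy x hx) ha, mul_le_mul_of_nonneg_left (hz x hx) hb]

lemma po_closed (K : Set (Fin n → ℝ)) : IsClosed (po K) := by
  have : po K = ⋂ x ∈ K, {y | x ⬝ᵥ y ≤ 1} := by
    ext y
    simp [po]
  rw [this]
  exact isClosed_biInter fun x _ => isClosed_le (cont_dot' x) continuous_const

lemma po_zero (K : Set (Fin n → ℝ)) : (0 : Fin n → ℝ) ∈ po K := by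
  intro x _; simp

lemma po_anti {K L : Set (Fin n → ℝ)} (h : K ⊆ L) : po L ⊆ po K := fun _ hy x hx => hy x (h hx)

/-- the bipolar theorem -/
lemma bipolar {C : Set (Fin n → ℝ)} (hc : IsClosed C) (hv : Convex ℝ C)
    (h0 : (0 : Fin n → ℝ) ∈ C) : po (po C) = C := by
  apply Subset.antisymm
  · intro x hx
    by_contra hxC
    obtain ⟨f, s, h1, h2⟩ := geometric_hahn_banach_closed_point hv hc hxC
    have hs : 0 < s := by
      have := h1 0 h0
      rwa [map_zero] at this
    set v : Fin n → ℝ := fun i => f (Pi.single i 1) with hvdef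
    have hfv : ∀ x, f x = x ⬝ᵥ v := by
      intro x
      conv_lhs => rw [← Finset.univ_sum_single x]
      rw [map_sum, dotProduct]
      apply Finset.sum_congr rfl
      intro i _
      have : (Pi.single i (x i) : Fin n → ℝ) = x i • Pi.single i 1 := by
        rw [← Pi.single_smul, smul_eq_mul, mul_one]
      rw [this, map_smul, smul_eq_mul]
    have hmem : s⁻¹ • v ∈ po C := by
      intro y hy
      rw [dotProduct_smul, smul_eq_mul, ← hfv, inv_mul_le_iff₀ hs, mul_one]
      exact (h1 y hy).le
    have h3 := hx _ hmem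
    rw [smul_dotProduct, smul_eq_mul, dotProduct_comm, ← hfv, inv_mul_le_iff₀ hs, mul_one] at h3
    linarith
  · intro x hx y hy
    rw [dotProduct_comm]
    exact hy x hx

lemma po_union (A B : Set (Fin n → ℝ)) : po (A ∪ B) = po A ∩ po B := by
  ext y
  constructor
  · intro h
    exact ⟨fun x hx => h x (Or.inl hx), fun x hx => h x (Or.inr hx)⟩
  · rintro ⟨h1, h2⟩ x (hx | hx)
    · exact h1 x hx
    · exact h2 x hx

lemma po_hull (A : Set (Fin n → ℝ)) : po (convexHull ℝ A) = po A := by
  apply Subset.antisymm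
  · exact po_anti (subset_convexHull ℝ A)
  · intro y hy
    have h1 : convexHull ℝ A ⊆ {x | x ⬝ᵥ y ≤ 1} := by
      refine convexHull_min hy ?_
      intro u hu v hv a b ha hb hab
      simp only [mem_setOf_eq] at hu hv ⊢
      rw [add_dotProduct, smul_dotProduct, smul_dotProduct, smul_eq_mul, smul_eq_mul]
      nlinarith [mul_le_mul_of_nonneg_left hu ha, mul_le_mul_of_nonneg_left hv hb]
    exact fun x hx => h1 hx

/-- the polar of a set with `0` in its interior is bounded -/
lemma po_bdd {C : Set (Fin n → ℝ)} (h0 : (0 : Fin n → ℝ) ∈ interior C) :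
    Bornology.IsBounded (po C) := by
  obtain ⟨r, hr, hrC⟩ := Metric.mem_nhds_iff.1 (mem_interior_iff_mem_nhds.1 h0)
  refine (Metric.isBounded_closedBall (x := (0 : Fin n → ℝ)) (r := 2 / r)).subset ?_
  intro y hy
  rw [mem_closedBall_zero_iff, pi_norm_le_iff_of_nonneg (by positivity)]
  intro i
  have hmem : ∀ s : ℝ, |s| ≤ 1 → (s * (r / 2)) • (Pi.single i (1:ℝ) : Fin n → ℝ) ∈ C := by
    intro s hs
    apply hrC
    rw [mem_ball_zero_iff, norm_smul]
    have h3 : ‖(Pi.single i (1:ℝ) : Fin n → ℝ)‖ ≤ 1 := by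
      rw [pi_norm_le_iff_of_nonneg zero_le_one]
      intro j
      by_cases hj : j = i
      · subst hj; simp
      · simp [hj]
    rw [Real.norm_eq_abs, abs_mul, abs_of_pos (show 0 < r / 2 by positivity)]
    calc |s| * (r / 2) * ‖(Pi.single i (1:ℝ) : Fin n → ℝ)‖ ≤ 1 * (r / 2) * 1 := by gcongr
      _ < r := by linarith
  have h4 : ∀ s : ℝ, |s| ≤ 1 → s * (r / 2) * y i ≤ 1 := by
    intro s hs
    have h5 := hy _ (hmem s hs)
    rw [smul_dotProduct, smul_eq_mul] at h5
    have h6 : (Pi.single i (1:ℝ) : Fin n → ℝ) ⬝ᵥ y = y i := by simp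
    rwa [h6] at h5
  rw [Real.norm_eq_abs, le_div_iff₀ hr]
  rcases le_total 0 (y i) with h | h
  · rw [abs_of_nonneg h]
    have := h4 1 (by simp)
    linarith
  · rw [abs_of_nonpos h]
    have := h4 (-1) (by simp)
    linarith

/-- a bounded set has a polar with `0` in its interior -/
lemma po_int {K : Set (Fin n → ℝ)} (hK : Bornology.IsBounded K) :
    (0 : Fin n → ℝ) ∈ interior (po K) := by
  obtain ⟨R, hR⟩ := hK.exists_norm_le
  set R' : ℝ := |R| + 1 with hR'
  have hR'pos : 0 < R' := by positivity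
  rw [mem_interior_iff_mem_nhds, Metric.mem_nhds_iff]
  refine ⟨1 / (R' * (n + 1)), by positivity, fun y hy => ?_⟩
  rw [mem_ball_zero_iff] at hy
  intro x hx
  have hxR : ‖x‖ ≤ R' := (hR x hx).trans (by rw [hR']; linarith [le_abs_self R])
  have h1 : x ⬝ᵥ y ≤ ∑ _i : Fin n, R' * (1 / (R' * (n + 1))) := by
    unfold dotProduct
    apply Finset.sum_le_sum
    intro i _
    have h2 := (norm_le_pi_norm x i).trans hxR
    have h3 := (norm_le_pi_norm y i).trans hy.le
    calc x i * y i ≤ |x i * y i| := le_abs_self _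
      _ = ‖x i‖ * ‖y i‖ := by rw [abs_mul]; rfl
      _ ≤ R' * (1 / (R' * (n + 1))) := by gcongr
  refine h1.trans ?_
  rw [Finset.sum_const, Finset.card_univ, Fintype.card_fin, nsmul_eq_mul]
  have h4 : (n:ℝ) * (R' * (1 / (R' * (n + 1)))) = n / (n + 1) := by field_simp
  rw [h4, div_le_one (by positivity)]
  linarith

/-- the Mahler volume at the origin and the polar body -/
lemma MI_po {K : Set (Fin n → ℝ)} (hK : IsCompact K) (hv : Convex ℝ K)
    (h0 : (0 : Fin n → ℝ) ∈ interior K) :
    MI K 0 = (n.factorial : ℝ≥0∞) * (volume K * volume (po K)) := by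
  rw [MI_eq_MZ, Pool.Agent.TH808.MZ_plr hK hv h0]
  have e : Pool.Agent.TH808.plr K 0 = po K := by
    unfold Pool.Agent.TH808.plr po
    simp only [sub_zero]
  rw [e]

/-- polarity does not change the Mahler volume -/
lemma MI_dual {K : Set (Fin n → ℝ)} (hK : IsCompact K) (hv : Convex ℝ K)
    (h0 : (0 : Fin n → ℝ) ∈ interior K) : MI (po K) 0 = MI K 0 := by
  have hPc : IsCompact (po K) := Metric.isCompact_of_isClosed_isBounded (po_closed K) (po_bdd h0)
  rw [MI_po hK hv h0, MI_po hPc (po_conv K) (po_int hK.isBounded),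
    bipolar hK.isClosed hv (interior_subset h0), mul_comm (volume K)]

/-- **intersections of a cylinder over a set of dimension at most `d` and at most `n - d + 1`
half-spaces, at the origin** -/
theorem dual0 {c : ℝ} (hc : 0 < c) {n d : ℕ} (hn : d ≤ n) (hd : ∀ K : Set (Fin d → ℝ),
    IsCompact K → Convex ℝ K → (interior K).Nonempty → LBI (c * cst d) K)
    (C : Set (Fin n → ℝ)) (hC : IsClosed C) (hv : Convex ℝ C) (L : Submodule ℝ (Fin n → ℝ))
    (hL : n ≤ finrank ℝ L + d) (hinv : ∀ x ∈ C, ∀ v ∈ L, x + v ∈ C)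
    (H : Finset ((Fin n → ℝ) × ℝ)) (hH : H.card + d ≤ n + 1) (K : Set (Fin n → ℝ))
    (hK : K = C ∩ {x | ∀ h ∈ H, x ⬝ᵥ h.1 ≤ h.2}) (hKc : IsCompact K)
    (h0 : (0 : Fin n → ℝ) ∈ interior K) : ENNReal.ofReal (c * cst n) ≤ MI K 0 := by
  classical
  have hKv : Convex ℝ K := by
    rw [hK]
    refine hv.inter ?_
    intro x hx y hy a b ha hb hab h hh
    rw [add_dotProduct, smul_dotProduct, smul_dotProduct, smul_eq_mul, smul_eq_mul]
    have h1 := hx h hh
    have h2 := hy h hh
    have hb' : b = 1 - a := by linarith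
    subst hb'
    nlinarith [mul_le_mul_of_nonneg_left h1 ha, mul_le_mul_of_nonneg_left h2 hb]
  have hKC : K ⊆ C := by rw [hK]; exact inter_subset_left
  have h0C : (0 : Fin n → ℝ) ∈ interior C := interior_mono hKC h0
  have h0K : (0 : Fin n → ℝ) ∈ K := interior_subset h0
  -- the half-spaces
  have hhalf : ∀ h ∈ H, {x : Fin n → ℝ | x ⬝ᵥ h.1 ≤ h.2} = po {h.2⁻¹ • h.1} := by
    intro h hh
    have hb : 0 ≤ h.2 := by
      have := h0K
      rw [hK] at this
      have h1 := this.2 h hh
      rwa [zero_dotProduct] at h1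
    rcases eq_or_lt_of_le hb with hb0 | hb0
    · -- then the normal vector is zero
      have hzero : h.1 = 0 := by
        obtain ⟨r, hr, hrK⟩ := Metric.mem_nhds_iff.1 (mem_interior_iff_mem_nhds.1 h0)
        by_contra hne
        have hn0 : 0 < ‖h.1‖ := norm_pos_iff.2 hne
        set t : ℝ := r / (2 * ‖h.1‖) with ht
        have ht0 : 0 < t := by positivity
        have hmem : t • h.1 ∈ K := by
          apply hrK
          rw [mem_ball_zero_iff, norm_smul, Real.norm_eq_abs, abs_of_pos ht0, ht]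
          have : r / (2 * ‖h.1‖) * ‖h.1‖ = r / 2 := by field_simp
          rw [this]; linarith
        rw [hK] at hmem
        have h1 := hmem.2 h hh
        rw [← hb0, smul_dotProduct, smul_eq_mul] at h1
        have h2 : h.1 ⬝ᵥ h.1 ≤ 0 := by
          by_contra hcon
          rw [not_le] at hcon
          have := mul_pos ht0 hcon
          linarith
        have h3 : h.1 ⬝ᵥ h.1 = 0 :=
          le_antisymm h2 (Finset.sum_nonneg fun i _ => mul_self_nonneg _)
        exact hne (dotProduct_self_eq_zero.1 h3)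
      ext x
      simp only [mem_setOf_eq, po, mem_singleton_iff, forall_eq, ← hb0, hzero, dotProduct_zero,
        smul_zero, zero_dotProduct, le_refl, zero_le_one]
    · ext x
      simp only [mem_setOf_eq, po, mem_singleton_iff, forall_eq]
      rw [smul_dotProduct, smul_eq_mul, inv_mul_le_iff₀ hb0, mul_one, dotProduct_comm]
  set W : Finset (Fin n → ℝ) := H.image fun h => h.2⁻¹ • h.1 with hW
  have hWcard : W.card + d ≤ n + 1 := by
    have := Finset.card_image_le (s := H) (f := fun h : (Fin n → ℝ) × ℝ => h.2⁻¹ • h.1)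
    rw [← hW] at this
    omega
  have hWpo : po (W : Set (Fin n → ℝ)) = {x | ∀ h ∈ H, x ⬝ᵥ h.1 ≤ h.2} := by
    ext x
    constructor
    · intro hx h hh
      have : x ∈ po {h.2⁻¹ • h.1} := by
        intro y hy
        rw [mem_singleton_iff] at hy
        rw [hy]
        exact hx _ (by rw [hW]; exact_mod_cast Finset.mem_image_of_mem _ hh)
      rw [← hhalf h hh] at this
      exact this
    · intro hx y hy
      rw [hW, Finset.coe_image] at hy
      obtain ⟨h, hh, rfl⟩ := hy
      have h1 : x ∈ {x : Fin n → ℝ | x ⬝ᵥ h.1 ≤ h.2} := hx h hh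
      rw [hhalf h hh] at h1
      exact h1 _ rfl
  have hCbi := bipolar hC hv (interior_subset h0C)
  have hKX : K = po (convexHull ℝ (po C ∪ (W : Set (Fin n → ℝ)))) := by
    rw [po_hull, po_union, hCbi, hWpo, hK]
  -- the generating set
  have hPc : IsCompact (po C) := Metric.isCompact_of_isClosed_isBounded (po_closed C) (po_bdd h0C)
  have hdim : finrank ℝ (vectorSpan ℝ (po C)) ≤ d := by
    -- the annihilator of `L`
    let T : (Fin n → ℝ) →ₗ[ℝ] (L →ₗ[ℝ] ℝ) :=
      { toFun := fun y =>
          { toFun := fun v => (v : Fin n → ℝ) ⬝ᵥ y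
            map_add' := fun v w => by simp [add_dotProduct]
            map_smul' := fun t v => by simp [smul_dotProduct] }
        map_add' := fun y z => by
          ext v
          simp [dotProduct_add]
        map_smul' := fun t y => by
          ext v
          simp [dotProduct_smul] }
    have hT : ∀ y (v : L), T y v = (v : Fin n → ℝ) ⬝ᵥ y := fun y v => rfl
    have hker : vectorSpan ℝ (po C) ≤ LinearMap.ker T := by
      have h1 : po C ⊆ LinearMap.ker T := by
        intro y hy
        rw [SetLike.mem_coe, LinearMap.mem_ker]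
        ext v
        rw [hT, LinearMap.zero_apply]
        -- unbounded in both directions
        have h2 : ∀ t : ℝ, t * ((v : Fin n → ℝ) ⬝ᵥ y) ≤ 1 := by
          intro t
          have h3 := hinv 0 (interior_subset h0C) (t • (v : Fin n → ℝ)) (L.smul_mem t v.2)
          rw [zero_add] at h3
          have h4 := hy _ h3
          rwa [smul_dotProduct, smul_eq_mul] at h4
        by_contra hne
        have h5 := h2 (2 / ((v : Fin n → ℝ) ⬝ᵥ y))
        rw [div_mul_cancel₀ _ hne] at h5
        linarith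
      unfold vectorSpan
      rw [Submodule.span_le]
      rintro _ ⟨x, hx, y, hy, rfl⟩
      show x - y ∈ LinearMap.ker T
      exact Submodule.sub_mem _ (h1 hx) (h1 hy)
    -- surjectivity
    have hsurj : LinearMap.range T = ⊤ := by
      rw [LinearMap.range_eq_top]
      intro g
      obtain ⟨f, hf⟩ := LinearMap.exists_extend g
      refine ⟨fun i => f (Pi.single i 1), ?_⟩
      ext v
      rw [hT, ← hf, LinearMap.comp_apply, Submodule.subtype_apply]
      conv_rhs => rw [← Finset.univ_sum_single (v : Fin n → ℝ)]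
      rw [map_sum, dotProduct]
      apply Finset.sum_congr rfl
      intro i _
      have : (Pi.single i ((v : Fin n → ℝ) i) : Fin n → ℝ) =
          (v : Fin n → ℝ) i • Pi.single i 1 := by
        rw [← Pi.single_smul, smul_eq_mul, mul_one]
      rw [this, map_smul, smul_eq_mul]
    have h6 := LinearMap.finrank_range_add_finrank_ker T
    rw [hsurj, finrank_top, finrank_fin_fun] at h6
    have h7 : finrank ℝ (L →ₗ[ℝ] ℝ) = finrank ℝ L := by
      rw [Module.finrank_linearMap, finrank_self, mul_one]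
    have h8 := Submodule.finrank_mono hker
    omega
  have h0X : (0 : Fin n → ℝ) ∈ convexHull ℝ (po C ∪ (W : Set (Fin n → ℝ))) :=
    subset_convexHull ℝ _ (Or.inl (po_zero C))
  have hCls : Cls d n W.card (po C ∪ (W : Set (Fin n → ℝ))) := by
    refine ⟨po C, W.toList, hPc, po_conv C, ⟨0, po_zero C⟩, hdim, by rw [Finset.length_toList], ?_⟩
    congr 1
    ext x
    simp
  have hXc : IsCompact (convexHull ℝ (po C ∪ (W : Set (Fin n → ℝ)))) := hCls.compact
  have hXbi := bipolar hXc.isClosed (convex_convexHull ℝ (po C ∪ (W : Set (Fin n → ℝ)))) h0X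
  rw [← hKX] at hXbi
  rw [← MI_dual hKc hKv h0, hXbi]
  refine hulls hc hn hd (po C) hPc (po_conv C) hdim W hWcard ?_ 0
  rw [← hXbi]
  exact ⟨0, po_int hKc.isBounded⟩

/-- **intersections, every position** -/
theorem duals {c : ℝ} (hc : 0 < c) {n d : ℕ} (hn : d ≤ n) (hd : ∀ K : Set (Fin d → ℝ),
    IsCompact K → Convex ℝ K → (interior K).Nonempty → LBI (c * cst d) K)
    (C : Set (Fin n → ℝ)) (hC : IsClosed C) (hv : Convex ℝ C) (L : Submodule ℝ (Fin n → ℝ))
    (hL : n ≤ finrank ℝ L + d) (hinv : ∀ x ∈ C, ∀ v ∈ L, x + v ∈ C)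
    (H : Finset ((Fin n → ℝ) × ℝ)) (hH : H.card + d ≤ n + 1) (K : Set (Fin n → ℝ))
    (hK : K = C ∩ {x | ∀ h ∈ H, x ⬝ᵥ h.1 ≤ h.2}) (hKc : IsCompact K)
    {z : Fin n → ℝ} (hz : z ∈ interior K) : ENNReal.ofReal (c * cst n) ≤ MI K z := by
  classical
  have hne : K.Nonempty := ⟨z, interior_subset hz⟩
  have h1 := MI_sub hKc hne z z
  rw [sub_self] at h1
  rw [← h1]
  have hint : interior ((fun x => x - z) '' K) = (fun x => x - z) '' interior K :=
    ((Homeomorph.subRight z).image_interior K).symm
  set C' := (fun x => x - z) '' C with hC'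
  have hmemC : ∀ x, x ∈ C' ↔ x + z ∈ C := by
    intro x
    constructor
    · rintro ⟨y, hy, rfl⟩; simpa using hy
    · intro hx; exact ⟨x + z, hx, by simp⟩
  have hmemK : ∀ x, x ∈ (fun x => x - z) '' K ↔ x + z ∈ K := by
    intro x
    constructor
    · rintro ⟨y, hy, rfl⟩; simpa using hy
    · intro hx; exact ⟨x + z, hx, by simp⟩
  refine dual0 hc hn hd C' ?_ ?_ L hL ?_
    (H.image fun h => (h.1, h.2 - z ⬝ᵥ h.1)) ?_ _ ?_ (hKc.image (by fun_prop)) ?_
  · rw [hC']
    exact (Homeomorph.subRight z).isClosed_image.2 hC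
  · have := hv.translate_preimage_left z
    have e : (fun x => x + z) ⁻¹' C = C' := by
      ext x; rw [hmemC]; rfl
    rwa [e] at this
  · intro x hx v hvL
    rw [hmemC] at hx ⊢
    have := hinv _ hx v hvL
    have e : x + v + z = x + z + v := by abel
    rw [e]; exact this
  · have := Finset.card_image_le (s := H)
      (f := fun h : (Fin n → ℝ) × ℝ => (h.1, h.2 - z ⬝ᵥ h.1))
    omega
  · ext x
    rw [hmemK]
    constructor
    · intro hx
      rw [hK] at hx
      refine ⟨(hmemC x).2 hx.1, ?_⟩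
      intro h hh
      obtain ⟨h', hh', rfl⟩ := Finset.mem_image.1 hh
      have := hx.2 h' hh'
      rw [add_dotProduct] at this
      simp only
      linarith
    · rintro ⟨hx1, hx2⟩
      rw [hK]
      refine ⟨(hmemC x).1 hx1, fun h hh => ?_⟩
      have := hx2 _ (Finset.mem_image_of_mem _ hh)
      simp only at this
      rw [add_dotProduct]
      linarith
  · rw [hint]
    exact ⟨z, hz, sub_self z⟩

end Pool.Agent.TH845.HP
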